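import Mathlib

/-!
Linear search on the line with a turning cost: the definitions of the problem.
A search trajectory is a sequence `x : ℕ → ℝ` of positive reals, `d` is the cost of one turn.
-/

namespace Pool.Agent.P.MP_5c5fd6_lc

open MeasureTheory
open scoped ENNReal

/-- The point `(-1)^i x_i` at which the `i`-th turn happens (counting from `i = 0`). -/
def turnPt (x : ℕ → ℝ) (i : ℕ) : ℝ := (-1) ^ i * x i

/-- The point at which the `i`-th leg of the walk starts: `0` for the first leg,
and the previous turning point for the later ones. Leg `i` ends at `turnPt x i`. -/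
def legStart (x : ℕ → ℝ) : ℕ → ℝ
  | 0 => 0
  | i + 1 => turnPt x i

/-- The length of the `i`-th leg. -/
def legLen (x : ℕ → ℝ) (i : ℕ) : ℝ := |turnPt x i - legStart x i|

/-- The time at which the `i`-th leg starts: the lengths of the earlier legs (unit speed)
plus `d` for each of the `i` turns made before. -/
def depart (d : ℝ) (x : ℕ → ℝ) (i : ℕ) : ℝ := ∑ j ∈ Finset.range i, (legLen x j + d)

/-- The searcher is at the point `H` at time `t`: either it is walking along leg `i` with unit
speed (to the right for even `i`, to the left for odd `i`), or it is standing at the `i`-th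
turning point during the time `d` that the turn costs. -/
def IsAt (d : ℝ) (x : ℕ → ℝ) (t H : ℝ) : Prop :=
  ∃ i : ℕ,
    (depart d x i ≤ t ∧ t ≤ depart d x i + legLen x i ∧
      H = legStart x i + (-1) ^ i * (t - depart d x i)) ∨
    (depart d x i + legLen x i ≤ t ∧ t ≤ depart d x (i + 1) ∧ H = turnPt x i)

/-- `C(S,H)`: the first time at which the searcher is at `H`, and `+∞` if it never is. -/
noncomputable def firstTime (d : ℝ) (x : ℕ → ℝ) (H : ℝ) : ℝ≥0∞ :=
  ⨅ (t : ℝ) (_ : IsAt d x t H), ENNReal.ofReal t

/-- `V̄(d)`: the infimum over search trajectories of the supremum, over probability distributions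
`h` on `ℝ` with `E_h |H| ≤ 1`, of the expected capture time `E_h C(S,H)`. -/
noncomputable def Vbar (d : ℝ) : ℝ≥0∞ :=
  ⨅ (x : ℕ → ℝ) (_ : ∀ i, 0 < x i),
    ⨆ (h : Measure ℝ) (_ : IsProbabilityMeasure h) (_ : ∫⁻ H, ENNReal.ofReal |H| ∂h ≤ 1),
      ∫⁻ H, firstTime d x H ∂h

end Pool.Agent.P.MP_5c5fd6_lc
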