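import Pool.Agent.P.MP_5c5fd6_lc.Defs

namespace Pool.Agent.P.MP_5c5fd6_lc

open MeasureTheory
open scoped ENNReal

/-- Time at which the searcher passes the origin at the start of excursion `k`. -/
def T (d : ℝ) (x : ℕ → ℝ) (k : ℕ) : ℝ := ∑ j ∈ Finset.range k, (2 * x j + d)

/-- Distance from the origin at the start of leg `i`. -/
def u (x : ℕ → ℝ) : ℕ → ℝ
  | 0 => 0
  | i + 1 => x i

lemma T_succ (d : ℝ) (x : ℕ → ℝ) (k : ℕ) : T d x (k + 1) = T d x k + (2 * x k + d) := by
  simp [T, Finset.sum_range_succ]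

lemma T_zero (d : ℝ) (x : ℕ → ℝ) : T d x 0 = 0 := by simp [T]

lemma T_mono {d : ℝ} (hd : 0 < d) {x : ℕ → ℝ} (hx : ∀ i, 0 < x i) : Monotone (T d x) := by
  apply monotone_nat_of_le_succ
  intro k
  rw [T_succ]
  have := hx k
  linarith

lemma T_nonneg {d : ℝ} (hd : 0 < d) {x : ℕ → ℝ} (hx : ∀ i, 0 < x i) (k : ℕ) : 0 ≤ T d x k := by
  have := T_mono hd hx (Nat.zero_le k)
  rwa [T_zero] at this

lemma u_nonneg {x : ℕ → ℝ} (hx : ∀ i, 0 < x i) (i : ℕ) : 0 ≤ u x i := by
  cases i with
  | zero => simp [u]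
  | succ i => simpa [u] using (hx i).le

lemma legStart_eq (x : ℕ → ℝ) (i : ℕ) : legStart x i = -((-1) ^ i * u x i) := by
  cases i with
  | zero => simp [legStart, u]
  | succ i => simp [legStart, u, turnPt, pow_succ]

lemma legLen_eq {x : ℕ → ℝ} (hx : ∀ i, 0 < x i) (i : ℕ) : legLen x i = x i + u x i := by
  unfold legLen
  rw [legStart_eq, turnPt]
  have h : (-1 : ℝ) ^ i * x i - -((-1) ^ i * u x i) = (-1) ^ i * (x i + u x i) := by ring
  rw [h, abs_mul, abs_pow, abs_neg, abs_one, one_pow, one_mul]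
  have := hx i
  have := u_nonneg hx i
  exact abs_of_nonneg (by linarith)

lemma depart_eq (d : ℝ) {x : ℕ → ℝ} (hx : ∀ i, 0 < x i) (i : ℕ) :
    depart d x i = T d x i - u x i := by
  induction i with
  | zero => simp [depart, T, u]
  | succ i ih =>
    have h1 : depart d x (i + 1) = depart d x i + (legLen x i + d) := by
      simp [depart, Finset.sum_range_succ]
    rw [h1, ih, T_succ, legLen_eq hx]
    simp only [u]
    ring

lemma firstTime_le (d : ℝ) {x : ℕ → ℝ} (hx : ∀ i, 0 < x i) (i : ℕ) (r : ℝ) (h0 : 0 ≤ r)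
    (hr : r ≤ x i) : firstTime d x ((-1) ^ i * r) ≤ ENNReal.ofReal (T d x i + r) := by
  unfold firstTime
  refine iInf₂_le_of_le (T d x i + r) ⟨i, Or.inl ⟨?_, ?_, ?_⟩⟩ le_rfl
  · rw [depart_eq d hx]; have := u_nonneg hx i; linarith
  · rw [depart_eq d hx, legLen_eq hx]; linarith
  · rw [depart_eq d hx, legStart_eq]; ring

/-- The farthest point explored on the side of excursion `k` before that excursion. -/
noncomputable def M (x : ℕ → ℝ) : ℕ → ℝ
  | 0 => 0
  | 1 => 0
  | k + 2 => max (M x k) (x k)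

lemma M_nonneg (x : ℕ → ℝ) : ∀ k, 0 ≤ M x k
  | 0 => by simp [M]
  | 1 => by simp [M]
  | k + 2 => by
    simp only [M]
    exact le_max_of_le_left (M_nonneg x k)

lemma le_M (x : ℕ → ℝ) (i : ℕ) : ∀ n, x i ≤ M x (i + 2 * n + 2)
  | 0 => by simp [M]
  | n + 1 => by
    have h := le_M x i n
    have e : i + 2 * (n + 1) + 2 = (i + 2 * n + 2) + 2 := by ring
    rw [e]
    simp only [M]
    exact le_max_of_le_left h

lemma le_of_M_lt {x : ℕ → ℝ} {k i : ℕ} {r : ℝ} (hr : M x k < r) (hi : r ≤ x i)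
    (hpar : i % 2 = k % 2) : k ≤ i := by
  by_contra hlt
  obtain ⟨n, hn⟩ : ∃ n, k = i + 2 * n + 2 := ⟨(k - i - 2) / 2, by omega⟩
  have := le_M x i n
  rw [← hn] at this
  linarith

lemma neg_one_pow_same {i k : ℕ} (h : i % 2 = k % 2) : (-1 : ℝ) ^ i = (-1) ^ k := by
  rw [neg_one_pow_eq_pow_mod_two, h, ← neg_one_pow_eq_pow_mod_two]

lemma neg_one_pow_diff {i k : ℕ} (h : i % 2 ≠ k % 2) : (-1 : ℝ) ^ i = -(-1) ^ k := by
  have h2 : i % 2 = (k + 1) % 2 := by omega
  rw [neg_one_pow_same h2, pow_succ]; ring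

lemma le_firstTime {d : ℝ} (hd : 0 < d) {x : ℕ → ℝ} (hx : ∀ i, 0 < x i) (k : ℕ) (r : ℝ)
    (hr : M x k < r) : ENNReal.ofReal (T d x k + r) ≤ firstTime d x ((-1) ^ k * r) := by
  unfold firstTime
  refine le_iInf₂ fun t ht => ENNReal.ofReal_le_ofReal ?_
  have hr0 : 0 < r := lt_of_le_of_lt (M_nonneg x k) hr
  have hne : (-1 : ℝ) ^ k ≠ 0 := pow_ne_zero _ (by norm_num)
  obtain ⟨i, ⟨h1, h2, h3⟩ | ⟨h1, h2, h3⟩⟩ := ht
  · rw [depart_eq d hx] at h1 h2 h3
    rw [legLen_eq hx] at h2
    rw [legStart_eq] at h3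
    have h4 : (-1 : ℝ) ^ k * r = (-1) ^ i * (t - T d x i) := by rw [h3]; ring
    by_cases hp : i % 2 = k % 2
    · rw [neg_one_pow_same hp] at h4
      have h5 : r = t - T d x i := mul_left_cancel₀ hne h4
      have h6 : k ≤ i := le_of_M_lt hr (by linarith) hp
      have := T_mono hd hx h6
      linarith
    · rw [neg_one_pow_diff hp] at h4
      have h5 : r = -(t - T d x i) := mul_left_cancel₀ hne (by rw [h4]; ring)
      cases i with
      | zero => simp only [u] at h1; linarith
      | succ j =>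
        simp only [u] at h1
        have h6 : k ≤ j := le_of_M_lt hr (by linarith) (by omega)
        have h7 := T_mono hd hx h6
        have h8 := T_succ d x j
        linarith
  · rw [depart_eq d hx, legLen_eq hx] at h1
    unfold turnPt at h3
    by_cases hp : i % 2 = k % 2
    · rw [neg_one_pow_same hp] at h3
      have h5 : r = x i := mul_left_cancel₀ hne h3
      have h6 : k ≤ i := le_of_M_lt hr (by linarith) hp
      have := T_mono hd hx h6
      linarith
    · rw [neg_one_pow_diff hp] at h3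
      have h5 : r = -x i := mul_left_cancel₀ hne (by rw [h3]; ring)
      have := hx i
      linarith

/-- The value of a trajectory against the best hider. -/
noncomputable def val (d : ℝ) (x : ℕ → ℝ) : ℝ≥0∞ :=
  ⨆ (h : Measure ℝ) (_ : IsProbabilityMeasure h) (_ : ∫⁻ H, ENNReal.ofReal |H| ∂h ≤ 1),
      ∫⁻ H, firstTime d x H ∂h

lemma two_point (d : ℝ) (x : ℕ → ℝ) (p H1 H2 g1 g2 : ℝ) (hp0 : 0 ≤ p) (hp1 : p ≤ 1)
    (hE : p * |H1| + (1 - p) * |H2| ≤ 1) (hg1 : 0 ≤ g1) (hg2 : 0 ≤ g2)
    (h1 : ENNReal.ofReal g1 ≤ firstTime d x H1) (h2 : ENNReal.ofReal g2 ≤ firstTime d x H2) :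
    ENNReal.ofReal (p * g1 + (1 - p) * g2) ≤ val d x := by
  have hq : 0 ≤ 1 - p := by linarith
  let h : Measure ℝ := ENNReal.ofReal p • Measure.dirac H1 + ENNReal.ofReal (1 - p) • Measure.dirac H2
  have hint : ∀ f : ℝ → ℝ≥0∞, ∫⁻ H, f H ∂h = ENNReal.ofReal p * f H1 + ENNReal.ofReal (1 - p) * f H2 := by
    intro f
    simp only [h, lintegral_add_measure, lintegral_smul_measure, lintegral_dirac, smul_eq_mul]
  have hprob : IsProbabilityMeasure h := by
    constructor
    simp only [h, Measure.add_apply, Measure.smul_apply, measure_univ, smul_eq_mul, mul_one]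
    rw [← ENNReal.ofReal_add hp0 hq]
    simp
  have hmean : ∫⁻ H, ENNReal.ofReal |H| ∂h ≤ 1 := by
    rw [hint, ← ENNReal.ofReal_mul hp0, ← ENNReal.ofReal_mul hq,
      ← ENNReal.ofReal_add (by positivity) (by positivity)]
    exact ENNReal.ofReal_le_one.2 hE
  unfold val
  refine le_iSup_of_le h (le_iSup_of_le hprob (le_iSup_of_le hmean ?_))
  rw [hint, ENNReal.ofReal_add (by positivity) (by positivity), ENNReal.ofReal_mul hp0,
    ENNReal.ofReal_mul hq]
  gcongr

lemma abs_side (k : ℕ) (r : ℝ) (hr : 0 ≤ r) : |(-1 : ℝ) ^ k * r| = r := by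
  rw [abs_mul, abs_pow, abs_neg, abs_one, one_pow, one_mul, abs_of_nonneg hr]

/-- Duality: a bound `W` on the value gives a supporting line. -/
lemma dual {d : ℝ} (hd : 0 < d) {x : ℕ → ℝ} (hx : ∀ i, 0 < x i) (W : ℝ) (hW0 : 0 ≤ W)
    (hW : val d x ≤ ENNReal.ofReal W) :
    ∃ lam : ℝ, ∀ k, T d x k ≤ (lam - 1) * M x k + (W - lam) := by
  have key : ∀ (p : ℝ) (k1 k2 : ℕ) (r1 r2 : ℝ), 0 ≤ p → p ≤ 1 → M x k1 < r1 → M x k2 < r2 →
      p * r1 + (1 - p) * r2 ≤ 1 → p * (T d x k1 + r1) + (1 - p) * (T d x k2 + r2) ≤ W := by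
    intro p k1 k2 r1 r2 hp0 hp1 h1 h2 hE
    have hr1 : 0 ≤ r1 := (lt_of_le_of_lt (M_nonneg x k1) h1).le
    have hr2 : 0 ≤ r2 := (lt_of_le_of_lt (M_nonneg x k2) h2).le
    have t1 := T_nonneg hd hx k1
    have t2 := T_nonneg hd hx k2
    have := two_point d x p ((-1) ^ k1 * r1) ((-1) ^ k2 * r2) (T d x k1 + r1) (T d x k2 + r2)
      hp0 hp1 (by rw [abs_side _ _ hr1, abs_side _ _ hr2]; exact hE) (by linarith) (by linarith)
      (le_firstTime hd hx k1 r1 h1) (le_firstTime hd hx k2 r2 h2)
    exact (ENNReal.ofReal_le_ofReal_iff hW0).1 (this.trans hW)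
  let S : Set ℝ := {z | ∃ (k : ℕ) (r : ℝ), M x k < r ∧ 1 < r ∧ z = (T d x k + r - W) / (r - 1)}
  have hub : ∀ (k : ℕ) (r : ℝ), M x k < r → r < 1 →
      (W - (T d x k + r)) / (1 - r) ∈ upperBounds S := by
    rintro k1 r1 h1 hlt z ⟨k2, r2, h2, hgt, rfl⟩
    have hpos : 0 < r2 - r1 := by linarith
    have hk := key ((r2 - 1) / (r2 - r1)) k1 k2 r1 r2 (by apply div_nonneg <;> linarith)
      (by rw [div_le_one hpos]; linarith) h1 h2 (by
        have : (r2 - 1) / (r2 - r1) * r1 + (1 - (r2 - 1) / (r2 - r1)) * r2 = 1 := by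
          field_simp; ring
        exact this.le)
    have e : (r2 - 1) / (r2 - r1) * (T d x k1 + r1) + (1 - (r2 - 1) / (r2 - r1)) * (T d x k2 + r2)
        = ((r2 - 1) * (T d x k1 + r1) + (1 - r1) * (T d x k2 + r2)) / (r2 - r1) := by
      field_simp; ring
    rw [e, div_le_iff₀ hpos] at hk
    rw [div_le_div_iff₀ (by linarith) (by linarith)]
    nlinarith
  have hbdd : BddAbove S := ⟨_, hub 0 (1 / 2) (by simp [M]) (by norm_num)⟩
  have hne : S.Nonempty := ⟨_, 0, 2, by simp [M], by norm_num, rfl⟩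
  refine ⟨sSup S, fun k => ?_⟩
  have hall : ∀ r, M x k < r → T d x k + r ≤ sSup S * r + (W - sSup S) := by
    intro r hr
    rcases lt_trichotomy r 1 with h | h | h
    · have := csSup_le hne (hub k r hr h)
      rw [le_div_iff₀ (by linarith)] at this
      nlinarith
    · have := key 1 k k r r zero_le_one le_rfl hr hr (by rw [h]; norm_num)
      rw [h] at this ⊢
      linarith
    · have := le_csSup hbdd (show (T d x k + r - W) / (r - 1) ∈ S from ⟨k, r, hr, h, rfl⟩)
      rw [div_le_iff₀ (by linarith)] at this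
      nlinarith
  have hcont : ContinuousWithinAt (fun r => (sSup S - 1) * r + (W - sSup S)) (Set.Ioi (M x k)) (M x k) := by
    fun_prop
  refine ge_of_tendsto hcont ?_
  filter_upwards [self_mem_nhdsWithin] with r hr
  have := hall r hr
  linarith

/-- The ratio argument. -/
lemma ratio (d κ σ η : ℝ) (hd : 0 < d) (hη : 0 < η) (V m : ℕ → ℝ) (hV0 : 0 < V 0)
    (hm : ∀ k, 0 < m k) (hV : ∀ k, V k + d ≤ V (k + 1)) (hκ : ∀ k, V k ≤ κ * m k)
    (hstep : ∀ k, m (k + 1) = m k ∨ (V (k + 1) = V k + m k ∧ m (k + 1) ≤ (κ + 1) * m k - V k))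
    (hσ : m 0 ≤ σ * V 0) (hq : ∀ s, 0 < s → s ≤ σ → η ≤ s ^ 2 - κ * s + 1) : False := by
  have hVpos : ∀ k, 0 < V k := by
    intro k
    induction k with
    | zero => exact hV0
    | succ k ih => have := hV k; linarith
  have hσ0 : 0 < σ := by
    by_contra h
    have := hm 0
    have : σ * V 0 ≤ 0 := mul_nonpos_of_nonpos_of_nonneg (not_lt.1 h) hV0.le
    linarith
  set δ := η / (1 + σ) with hδ
  have hδ0 : 0 < δ := by positivity
  have hδe : δ * (1 + σ) = η := by rw [hδ]; field_simp
  have step : ∀ τ, τ ≤ σ → (∃ k, m k ≤ τ * V k) → ∃ k, m k ≤ (τ - δ) * V k := by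
    rintro τ hτ ⟨k, hk⟩
    by_contra hcon
    push Not at hcon
    have hτ0 : 0 < τ := by
      by_contra h
      have := hm k
      have : τ * V k ≤ 0 := mul_nonpos_of_nonpos_of_nonneg (not_lt.1 h) (hVpos k).le
      linarith
    have hind : ∀ n : ℕ, m (k + n) = m k ∧ V k + n * d ≤ V (k + n) ∧ m (k + n) ≤ τ * V (k + n) := by
      intro n
      induction n with
      | zero => simpa using hk
      | succ n ih =>
        obtain ⟨i1, i2, i3⟩ := ih
        have hv := hV (k + n)
        rcases hstep (k + n) with h | ⟨h1, h2⟩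
        · refine ⟨by rw [← add_assoc, h, i1], by rw [← add_assoc]; push_cast; linarith, ?_⟩
          rw [← add_assoc, h]
          nlinarith
        · exfalso
          have hc := hcon (k + n + 1)
          set v := V (k + n) with hv'
          have hvpos : 0 < v := hVpos _
          obtain ⟨s, hs⟩ : ∃ s, m (k + n) = s * v := ⟨m (k + n) / v, by field_simp⟩
          have hs0 : 0 < s := by
            have := hm (k + n)
            rw [hs] at this
            exact (mul_pos_iff_of_pos_right hvpos).1 this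
          have hsτ : s ≤ τ := by
            rw [hs] at i3
            exact le_of_mul_le_mul_right i3 hvpos
          have hqs := hq s hs0 (hsτ.trans hτ)
          rw [h1, hs] at hc
          rw [hs] at h2
          have h3 : (κ + 1) * s - 1 ≤ (τ - δ) * (1 + s) := by nlinarith
          have h4 : ((κ + 1) * s - 1) * v ≤ (τ - δ) * (1 + s) * v :=
            mul_le_mul_of_nonneg_right h3 hvpos.le
          nlinarith
    obtain ⟨n, hn⟩ := exists_nat_gt ((κ * m k - V k) / d)
    obtain ⟨i1, i2, -⟩ := hind n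
    have := hκ (k + n)
    rw [i1] at this
    rw [div_lt_iff₀ hd] at hn
    linarith
  have hall : ∀ j : ℕ, ∃ k, m k ≤ (σ - j * δ) * V k := by
    intro j
    induction j with
    | zero => exact ⟨0, by simpa using hσ⟩
    | succ j ih =>
      have := step (σ - j * δ) (by have : (0 : ℝ) ≤ j * δ := by positivity
                                   linarith) ih
      obtain ⟨k, hk⟩ := this
      refine ⟨k, ?_⟩
      push_cast
      have e : σ - (j + 1) * δ = σ - j * δ - δ := by ring
      rw [e]; exact hk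
  obtain ⟨j, hj⟩ := exists_nat_gt (σ / δ)
  obtain ⟨k, hk⟩ := hall j
  rw [div_lt_iff₀ hδ0] at hj
  have := hm k
  have : (σ - j * δ) * V k ≤ 0 := mul_nonpos_of_nonpos_of_nonneg (by linarith) (hVpos k).le
  linarith

/-- The trade-off between the slope and the intercept of a supporting line. -/
lemma tradeoff {d : ℝ} (hd : 0 < d) {x : ℕ → ℝ} (hx : ∀ i, 0 < x i) (lam B : ℝ)
    (h : ∀ k, T d x k ≤ (lam - 1) * M x k + B) :
    ∃ t : ℝ, 0 < t ∧ lam = 5 + 2 * t + 2 / t ∧ (1 + t) * d ≤ B := by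
  obtain ⟨μ, hμ⟩ : ∃ μ, lam = 1 + 2 * μ := ⟨(lam - 1) / 2, by ring⟩
  set c := μ * d - B with hc
  let N : ℕ → ℝ := fun k => 2 * M x k + d
  have hN : ∀ k, d ≤ N k := fun k => by have := M_nonneg x k; simp only [N]; linarith
  have hU : ∀ k, T d x k + c ≤ μ * N k := fun k => by
    have := h k
    simp only [N]
    rw [hμ] at this
    linarith
  have hN2 : ∀ k, N (k + 2) = max (N k) (2 * x k + d) := fun k => by
    simp only [N, M]
    rcases le_total (M x k) (x k) with h1 | h1
    · rw [max_eq_right h1, max_eq_right (by linarith)]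
    · rw [max_eq_left h1, max_eq_left (by linarith)]
  let V : ℕ → ℝ := fun k => T d x k + c - N k - N (k + 1)
  let m : ℕ → ℝ := fun k => min (N k) (N (k + 1))
  have hm : ∀ k, 0 < m k := fun k => lt_min (hd.trans_le (hN _)) (hd.trans_le (hN _))
  have hV : ∀ k, V k + d ≤ V (k + 1) := fun k => by
    simp only [V]
    rw [T_succ, hN2]
    have := hN k
    have := hx k
    rcases le_total (N k) (2 * x k + d) with h1 | h1
    · rw [max_eq_right h1]; linarith
    · rw [max_eq_left h1]; linarith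
  have hκ : ∀ k, V k ≤ (μ - 2) * m k := fun k => by
    simp only [V, m]
    have h1 := hU k
    have h2 := hU (k + 1)
    have h3 := T_mono hd hx (Nat.le_succ k)
    rcases le_total (N k) (N (k + 1)) with h4 | h4
    · rw [min_eq_left h4]; linarith
    · rw [min_eq_right h4]; simp only [Nat.succ_eq_add_one] at h3; linarith
  have hstep : ∀ k, m (k + 1) = m k ∨
      (V (k + 1) = V k + m k ∧ m (k + 1) ≤ (μ - 2 + 1) * m k - V k) := fun k => by
    simp only [V, m]
    rw [T_succ, hN2]
    have h1 := hU k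
    rcases le_total (N k) (2 * x k + d) with h2 | h2
    · rw [max_eq_right h2]
      rcases le_total (N k) (N (k + 1)) with h4 | h4
      · right
        rw [min_eq_left h4]
        have := min_le_left (N (k + 1)) (2 * x k + d)
        constructor <;> linarith
      · left
        rw [min_eq_right h4, min_eq_left (h4.trans h2)]
    · left
      rw [max_eq_left h2, min_comm]
  have shift : ∀ (k0 : ℕ) (σ η : ℝ), 0 < η → 0 < V k0 → m k0 ≤ σ * V k0 →
      (∀ s, 0 < s → s ≤ σ → η ≤ s ^ 2 - (μ - 2) * s + 1) → False := by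
    intro k0 σ η hη h0 h1 h2
    exact ratio d (μ - 2) σ η hd hη (fun k => V (k0 + k)) (fun k => m (k0 + k)) h0
      (fun k => hm _) (fun k => hV _) (fun k => hκ _) (fun k => hstep _) h1 h2
  by_cases hμ4 : μ < 4
  · exfalso
    have hgrow : ∀ k : ℕ, V 0 + k * d ≤ V k := by
      intro k
      induction k with
      | zero => simp
      | succ k ih => have := hV k; push_cast; linarith
    obtain ⟨k0, hk0⟩ := exists_nat_gt (-V 0 / d)
    rw [div_lt_iff₀ hd] at hk0
    have hpos : 0 < V k0 := by have := hgrow k0; linarith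
    have hμ2 : 0 < μ - 2 := by
      have h1 := hκ k0
      have h2 := hm k0
      by_contra h3
      have : (μ - 2) * m k0 ≤ 0 := mul_nonpos_of_nonpos_of_nonneg (not_lt.1 h3) h2.le
      linarith
    refine shift k0 (m k0 / V k0) (1 - (μ - 2) ^ 2 / 4) (by nlinarith) hpos
      (by rw [div_mul_cancel₀ _ hpos.ne']) ?_
    intro s _ _
    nlinarith [sq_nonneg (s - (μ - 2) / 2)]
  · push Not at hμ4
    set w := √((μ - 2) ^ 2 - 4) with hw
    have hw0 : 0 ≤ w := Real.sqrt_nonneg _
    have hw2 : w ^ 2 = (μ - 2) ^ 2 - 4 := Real.sq_sqrt (by nlinarith)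
    set t := (μ - 2 - w) / 2 with ht
    have hwlt : w < μ - 2 := by nlinarith
    have ht0 : 0 < t := by rw [ht]; linarith
    have hroot : t ^ 2 - (μ - 2) * t + 1 = 0 := by rw [ht]; nlinarith
    have hinv : 1 / t = μ - 2 - t := by rw [div_eq_iff ht0.ne']; nlinarith
    have htle : t ≤ μ - 2 - t := by rw [ht]; linarith
    refine ⟨t, ht0, ?_, ?_⟩
    · have : 2 / t = 2 * (1 / t) := by ring
      rw [this, hinv, hμ]; ring
    · by_contra hB
      push Not at hB
      have hN1 : N 1 = d := by simp [N, M]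
      have hN2' : N 2 = 2 * x 0 + d := by
        have := hN2 0
        have h0 : N 0 = d := by simp [N, M]
        rw [h0, max_eq_right (by have := hx 0; linarith)] at this
        exact this
      have hV1 : V 1 = c - d := by
        simp only [V]
        rw [T_succ, T_zero, hN1, hN2']; ring
      have hm1 : m 1 = d := by
        simp only [m]
        rw [hN1, hN2', min_eq_left (by have := hx 0; linarith)]
      have hcd : (μ - 2 - t) * d < c - d := by rw [hc]; linarith
      have hVpos : 0 < c - d := lt_trans (by apply mul_pos <;> linarith) hcd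
      have hσt : d / (c - d) < t := by
        rw [div_lt_iff₀ hVpos]
        have : t * ((μ - 2 - t) * d) = d := by
          have : t * (μ - 2 - t) = 1 := by linarith
          rw [← mul_assoc, this, one_mul]
        nlinarith
      refine shift 1 (d / (c - d)) ((t - d / (c - d)) ^ 2) (by have := sub_pos.2 hσt; positivity)
        (by rw [hV1]; exact hVpos) (by rw [hV1, hm1, div_mul_cancel₀ _ hVpos.ne']) ?_
      intro s _ hs
      have e : s ^ 2 - (μ - 2) * s + 1 = (t - s) * (μ - 2 - t - s) := by nlinarith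
      rw [e]
      have a1 : t - d / (c - d) ≤ t - s := by linarith
      have a2 : t - d / (c - d) ≤ μ - 2 - t - s := by linarith
      have a3 : 0 ≤ t - d / (c - d) := by linarith
      rw [sq]
      exact mul_le_mul a1 a2 a3 (a3.trans a1)

lemma amgm {d t : ℝ} (hd : 0 < d) (ht : 0 < t) : 2 * √(4 + 2 * d) ≤ (2 + d) * t + 2 / t := by
  have h1 : √(4 + 2 * d) ^ 2 = 4 + 2 * d := Real.sq_sqrt (by linarith)
  have h2 : 0 ≤ √(4 + 2 * d) := Real.sqrt_nonneg _
  set w := √(4 + 2 * d)
  have e : (2 + d) * t + 2 / t - 2 * w = (w * t - 2) ^ 2 / (2 * t) := by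
    field_simp
    nlinarith
  have : 0 ≤ (w * t - 2) ^ 2 / (2 * t) := by positivity
  linarith

lemma lower {d : ℝ} (hd : 0 < d) {x : ℕ → ℝ} (hx : ∀ i, 0 < x i) :
    ENNReal.ofReal (5 + d + 2 * √(4 + 2 * d)) ≤ val d x := by
  by_contra hlt
  push Not at hlt
  have hne : val d x ≠ ⊤ := ne_top_of_lt hlt
  have hW : val d x = ENNReal.ofReal (val d x).toReal := (ENNReal.ofReal_toReal hne).symm
  have hlt' : (val d x).toReal < 5 + d + 2 * √(4 + 2 * d) := by
    rw [hW] at hlt
    exact (ENNReal.ofReal_lt_ofReal_iff_of_nonneg ENNReal.toReal_nonneg).1 hlt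
  obtain ⟨lam, hlam⟩ := dual hd hx _ ENNReal.toReal_nonneg hW.le
  obtain ⟨t, ht, h1, h2⟩ := tradeoff hd hx lam _ hlam
  have := amgm hd ht
  linarith

lemma upper_traj {d t : ℝ} (hd : 0 < d) (ht : 0 < t) :
    ∃ x : ℕ → ℝ, (∀ i, 0 < x i) ∧
      val d x ≤ ENNReal.ofReal (5 + 2 * t + 2 / t + (1 + t) * d) := by
  let x : ℕ → ℝ := fun i => d / 2 * ((1 + t) ^ (i + 1) - 1)
  have hxge : ∀ i : ℕ, d / 2 * ((i + 1) * t) ≤ x i := by
    intro i
    have := one_add_mul_le_pow (a := t) (by linarith) (i + 1)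
    push_cast at this
    simp only [x]
    apply mul_le_mul_of_nonneg_left _ (by linarith)
    linarith
  have hx : ∀ i, 0 < x i := fun i => lt_of_lt_of_le (by positivity) (hxge i)
  have hT : ∀ k, T d x k * t = d * (1 + t) * ((1 + t) ^ k - 1) := by
    intro k
    induction k with
    | zero => simp [T_zero]
    | succ k ih =>
      rw [T_succ, add_mul, ih]
      simp only [x]
      ring
  set lam := 5 + 2 * t + 2 / t with hlam
  have hlam0 : 1 ≤ lam := by
    have : 0 < 2 / t := by positivity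
    linarith
  have hlamt : (lam - 1) * t = 2 * (1 + t) ^ 2 := by rw [hlam]; field_simp; ring
  have hpt : ∀ H, firstTime d x H ≤ ENNReal.ofReal (lam * |H| + (1 + t) * d) := by
    intro H
    have hex : ∃ i : ℕ, H = (-1) ^ i * |H| ∧ |H| ≤ x i := by
      obtain ⟨n, hn⟩ := exists_nat_gt (|H| / (d / 2 * t))
      rw [div_lt_iff₀ (by positivity)] at hn
      have hbig : ∀ i : ℕ, n ≤ i → |H| ≤ x i := by
        intro i hi
        have h1 : (n : ℝ) ≤ i := by exact_mod_cast hi
        have h2 := hxge i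
        have h3 : 0 < d / 2 * t := by positivity
        nlinarith
      rcases le_total 0 H with h0 | h0
      · exact ⟨2 * n, by rw [abs_of_nonneg h0]; simp, hbig _ (by omega)⟩
      · exact ⟨2 * n + 1, by rw [abs_of_nonpos h0, pow_succ]; simp, hbig _ (by omega)⟩
    classical
    have hspec := Nat.find_spec hex
    have hmin := fun j => Nat.find_min hex (m := j)
    generalize Nat.find hex = i at hspec hmin
    obtain ⟨hs1, hs2⟩ := hspec
    have hle := firstTime_le d hx i |H| (abs_nonneg _) hs2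
    rw [← hs1] at hle
    refine hle.trans (ENNReal.ofReal_le_ofReal ?_)
    have habs := abs_nonneg H
    have hl : 0 ≤ (lam - 1) * |H| := mul_nonneg (by linarith) habs
    have hB : 0 < (1 + t) * d := by positivity
    match i, hs1, hs2, hmin with
    | 0, _, _, _ => rw [T_zero]; nlinarith
    | 1, _, _, _ =>
      have : T d x 1 = (1 + t) * d := by
        apply mul_right_cancel₀ ht.ne'
        rw [hT]; ring
      rw [this]; nlinarith
    | j + 2, hs1, _, hmin =>
      have h1 := hmin j (by omega)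
      have h2 : H = (-1) ^ j * |H| := by
        rw [pow_succ, pow_succ] at hs1
        linarith
      have h3 : x j < |H| := by
        by_contra h4
        exact h1 ⟨h2, not_lt.1 h4⟩
      have h5 : T d x (j + 2) = (lam - 1) * x j + (1 + t) * d := by
        apply mul_right_cancel₀ ht.ne'
        rw [hT]
        have : ((lam - 1) * x j + (1 + t) * d) * t = ((lam - 1) * t) * x j + (1 + t) * d * t := by
          ring
        rw [this, hlamt]
        simp only [x]
        ring
      have h6 : (lam - 1) * x j ≤ (lam - 1) * |H| :=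
        mul_le_mul_of_nonneg_left h3.le (by linarith)
      rw [h5]; linarith
  refine ⟨x, hx, ?_⟩
  unfold val
  refine iSup_le fun h => iSup_le fun hp => iSup_le fun hE => ?_
  have hB : 0 ≤ (1 + t) * d := by positivity
  calc ∫⁻ H, firstTime d x H ∂h
      ≤ ∫⁻ H, (ENNReal.ofReal lam * ENNReal.ofReal |H| + ENNReal.ofReal ((1 + t) * d)) ∂h := by
        refine lintegral_mono fun H => (hpt H).trans ?_
        rw [ENNReal.ofReal_add (by positivity) hB, ENNReal.ofReal_mul (by linarith)]
    _ = ENNReal.ofReal lam * ∫⁻ H, ENNReal.ofReal |H| ∂h + ENNReal.ofReal ((1 + t) * d) := by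
        rw [lintegral_add_right _ measurable_const, lintegral_const_mul' _ _ ENNReal.ofReal_ne_top]
        simp
    _ ≤ ENNReal.ofReal lam * 1 + ENNReal.ofReal ((1 + t) * d) := by gcongr
    _ = _ := by rw [mul_one, ← ENNReal.ofReal_add (by linarith) hB]

theorem Vbar_eq {d : ℝ} (hd : 0 < d) :
    Vbar d = ENNReal.ofReal (5 + d + 2 * √(4 + 2 * d)) := by
  apply le_antisymm
  · have h1 : √(4 + 2 * d) ^ 2 = 4 + 2 * d := Real.sq_sqrt (by linarith)
    have h2 : 0 < √(4 + 2 * d) := Real.sqrt_pos.2 (by linarith)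
    obtain ⟨x, hx, hv⟩ := upper_traj hd (t := 2 / √(4 + 2 * d)) (by positivity)
    have e : 5 + 2 * (2 / √(4 + 2 * d)) + 2 / (2 / √(4 + 2 * d)) + (1 + 2 / √(4 + 2 * d)) * d
        = 5 + d + 2 * √(4 + 2 * d) := by
      set w := √(4 + 2 * d)
      field_simp
      nlinarith
    rw [e] at hv
    exact iInf₂_le_of_le x hx hv
  · exact le_iInf₂ fun x hx => lower hd hx

theorem val_lt {d : ℝ} (hd : 0 < d) : 5 + d + 2 * √(4 + 2 * d) < 9 + 2 * d := by
  have : √(4 + 2 * d) < 2 + d / 2 := by
    rw [Real.sqrt_lt' (by linarith)]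
    nlinarith
  linarith

end Pool.Agent.P.MP_5c5fd6_lc
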