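import Mathlib

/-!
Search on a star against a symmetric hider: the order of the excursions may be taken increasing,
and a potential bounds the cost of an increasing sequence from below.
-/

namespace Pool.Agent.P.MP_5c5fd6_lc.Star

open MeasureTheory Set Filter Topology

/-- One if an excursion of depth `y` reaches the level `t`. -/
noncomputable def e (y t : ℝ) : ℕ := if t ≤ y then 1 else 0

theorem e_anti (y : ℝ) : Antitone (e y) := by
  intro s t h
  unfold e
  split_ifs with h1 h2
  exacts [le_rfl, absurd (h.trans h1) h2, zero_le_one, le_rfl]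

theorem add_e {c : ℝ → ℕ} (hc : Antitone c) (y : ℝ) : Antitone (c + e y) := hc.add (e_anti y)

theorem meas_sub {c : ℝ → ℕ} (hc : Antitone c) (n : ℕ) :
    Measurable fun t => ((n - c t : ℕ) : ℝ) :=
  (measurable_of_countable fun k : ℕ => ((n - k : ℕ) : ℝ)).comp hc.measurable

theorem norm_sub_le' (n k : ℕ) : ‖((n - k : ℕ) : ℝ)‖ ≤ n := by
  rw [Real.norm_natCast]
  exact_mod_cast Nat.sub_le n k

variable (m : ℕ) (μ : Measure ℝ)

/-- The expected number of rays that are still unexplored at the level of the hider. -/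
noncomputable def Un (c : ℝ → ℕ) : ℝ := ∫ t, ((m - c t : ℕ) : ℝ) ∂μ

/-- The relaxed cost of a finite list of excursions, with a final penalty. -/
noncomputable def W (K : ℝ) : List ℝ → (ℝ → ℕ) → ℝ
  | [], c => K * Un m μ c
  | y :: l, c => y * Un m μ (c + e y) + W K l (c + e y)

variable {m μ}

theorem W_cons (K y : ℝ) (l : List ℝ) (c : ℝ → ℕ) :
    W m μ K (y :: l) c = y * Un m μ (c + e y) + W m μ K l (c + e y) := rfl

theorem P_nonneg (c : ℝ → ℕ) : 0 ≤ Un m μ c := integral_nonneg fun _ => Nat.cast_nonneg _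

variable [IsFiniteMeasure μ]

theorem int_sub {c : ℝ → ℕ} (hc : Antitone c) (n : ℕ) :
    Integrable (fun t => ((n - c t : ℕ) : ℝ)) μ :=
  (integrable_const (n : ℝ)).mono' (meas_sub hc n).aestronglyMeasurable
    (Eventually.of_forall fun _ => norm_sub_le' _ _)

theorem P4 {c1 c2 c3 c4 : ℝ → ℕ} (h1 : Antitone c1) (h2 : Antitone c2) (h3 : Antitone c3)
    (h4 : Antitone c4) (h : ∀ t, (m - c1 t) + (m - c2 t) ≤ (m - c3 t) + (m - c4 t)) :
    Un m μ c1 + Un m μ c2 ≤ Un m μ c3 + Un m μ c4 := by
  unfold Un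
  rw [← integral_add (int_sub h1 m) (int_sub h2 m), ← integral_add (int_sub h3 m) (int_sub h4 m)]
  refine integral_mono ((int_sub h1 m).add (int_sub h2 m)) ((int_sub h3 m).add (int_sub h4 m))
    fun t => ?_
  simp only
  exact_mod_cast h t

theorem P_le {c1 c2 : ℝ → ℕ} (h1 : Antitone c1) (h2 : Antitone c2)
    (h : ∀ t, m - c1 t ≤ m - c2 t) : Un m μ c1 ≤ Un m μ c2 := by
  have := P4 (μ := μ) h1 h1 h2 h2 fun t => add_le_add (h t) (h t)
  linarith

theorem e_mono {z D : ℝ} (h : z ≤ D) (t : ℝ) : e z t ≤ e D t := by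
  unfold e
  split_ifs with h1 h2
  exacts [le_rfl, absurd (h1.trans h) h2, zero_le_one, le_rfl]

theorem P_raise {c : ℝ → ℕ} (hc : Antitone c) {z D : ℝ} (h : z ≤ D) :
    Un m μ (c + e D) ≤ Un m μ (c + e z) :=
  P_le (add_e hc D) (add_e hc z) fun t => by
    have := e_mono h t
    simp only [Pi.add_apply]
    omega

theorem P_add {c : ℝ → ℕ} (hc : Antitone c) (z : ℝ) : Un m μ (c + e z) ≤ Un m μ c :=
  P_le (add_e hc z) hc fun t => by
    simp only [Pi.add_apply]
    omega

theorem one_step {c c' : ℝ → ℕ} (hc : Antitone c) (hc' : Antitone c') {z D : ℝ} (h : z < D)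
    (hle : ∀ t, c t + e D t ≤ c' t) :
    (Un m μ (c + e z) - Un m μ (c + e D)) * (Un m μ c' - Un m μ (c' + e z)) ≤
      (Un m μ (c + e D) - Un m μ (c + e D + e z)) * (Un m μ (c' + e z) - Un m μ (c' + e D)) := by
  have hw := P_add (m := m) (μ := μ) (add_e hc D) z
  have hb := P_raise (m := m) (μ := μ) hc' h.le
  have hg := P_raise (m := m) (μ := μ) hc h.le
  have ha := P_add (m := m) (μ := μ) hc' z
  by_cases hz : m ≤ c' z
  · have h0 : Un m μ c' ≤ Un m μ (c' + e z) := P_le hc' (add_e hc' z) fun t => by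
      simp only [Pi.add_apply, e]
      split_ifs with h1
      · have := hc' h1
        omega
      · omega
    rw [le_antisymm h0 ha, sub_self, mul_zero]
    exact mul_nonneg (sub_nonneg.2 hw) (sub_nonneg.2 hb)
  · have h1 : Un m μ c' + Un m μ (c + e D + e z) ≤ Un m μ (c + e D) + Un m μ (c' + e z) :=
      P4 hc' (add_e (add_e hc D) z) (add_e hc D) (add_e hc' z) fun t => by
        have := hle t
        simp only [Pi.add_apply]
        omega
    have h2 : Un m μ (c + e z) + Un m μ (c' + e D) ≤ Un m μ (c + e D) + Un m μ (c' + e z) :=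
      P4 (add_e hc z) (add_e hc' D) (add_e hc D) (add_e hc' z) fun t => by
        simp only [Pi.add_apply, e]
        by_cases h3 : t ≤ z
        · rw [if_pos h3, if_pos (h3.trans h.le)]
        · have := hc' (not_le.1 h3).le
          rw [if_neg h3]
          split_ifs <;> omega
    rw [mul_comm]
    exact mul_le_mul (by linarith) (by linarith) (sub_nonneg.2 hg) (sub_nonneg.2 hw)

theorem later {K : ℝ} (hK : 0 ≤ K) {c : ℝ → ℕ} (hc : Antitone c) {z D : ℝ} (h : z < D) :
    ∀ (l : List ℝ), (∀ v ∈ l, 0 < v) → ∀ c' : ℝ → ℕ, Antitone c' → (∀ t, c t + e D t ≤ c' t) →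
      (Un m μ (c + e z) - Un m μ (c + e D)) * (W m μ K l c' - W m μ K l (c' + e z)) ≤
        (Un m μ (c + e D) - Un m μ (c + e D + e z)) *
          (W m μ K l (c' + e z) - W m μ K l (c' + e D)) ∧
      W m μ K l (c' + e D) ≤ W m μ K l (c' + e z)
  | [], _, c', hc', hle => by
    have h1 := mul_le_mul_of_nonneg_left (one_step (m := m) (μ := μ) hc hc' h hle) hK
    have h2 := mul_le_mul_of_nonneg_left (P_raise (m := m) (μ := μ) hc' h.le) hK
    simp only [W]
    exact ⟨by linarith, h2⟩
  | y :: l, hl, c', hc', hle => by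
    have hy := (hl y (by simp)).le
    have hle' : ∀ t, c t + e D t ≤ (c' + e y) t := fun t => (hle t).trans (Nat.le_add_right _ _)
    have h1 := mul_le_mul_of_nonneg_left (one_step (m := m) (μ := μ) hc (add_e hc' y) h hle') hy
    have h2 := mul_le_mul_of_nonneg_left (P_raise (m := m) (μ := μ) (add_e hc' y) h.le) hy
    obtain ⟨h3, h4⟩ := later hK hc h l (fun v hv => hl v (by simp [hv])) _ (add_e hc' y) hle'
    simp only [W, add_right_comm c' _ (e y)]
    exact ⟨by linarith, by linarith⟩

/-- An inversion can be removed by a swap, a deletion or a raise. -/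
theorem exch {K : ℝ} (hK : 0 ≤ K) {c : ℝ → ℕ} (hc : Antitone c) {z D : ℝ} (hz : 0 < z)
    (h : z < D) {l : List ℝ} (hl : ∀ v ∈ l, 0 < v) :
    W m μ K (z :: D :: l) c ≤ W m μ K (D :: z :: l) c ∨
      W m μ K (D :: l) c ≤ W m μ K (D :: z :: l) c ∨
      W m μ K (D :: D :: l) c ≤ W m μ K (D :: z :: l) c := by
  obtain ⟨h1, h2⟩ := later (m := m) (μ := μ) hK hc h l hl _ (add_e hc D) fun _ => le_rfl
  have hw := P_add (m := m) (μ := μ) (add_e hc D) z
  have hg := P_raise (m := m) (μ := μ) hc h.le
  have hb := P_raise (m := m) (μ := μ) (add_e hc D) h.le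
  have h0 := P_nonneg (m := m) (μ := μ) (c + e D + e z)
  by_contra hcon
  simp only [W, not_or, not_le, add_right_comm c (e z) (e D)] at hcon
  obtain ⟨k1, k2, k3⟩ := hcon
  set P0 := Un m μ (c + e D + e z)
  set g := Un m μ (c + e z) - Un m μ (c + e D) with hgd
  set w := Un m μ (c + e D) - P0 with hwd
  set A := W m μ K l (c + e D) - W m μ K l (c + e D + e z) with hA
  set B := W m μ K l (c + e D + e z) - W m μ K l (c + e D + e D) with hB
  have j1 : (D - z) * w < z * g := by rw [hgd, hwd]; linarith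
  have j2 : z * P0 < A := by rw [hA]; linarith
  have j3 : B < (D - z) * P0 := by
    have := mul_le_mul_of_nonneg_left hb (hz.trans h).le
    rw [hB]; linarith
  have g0 : 0 ≤ g := sub_nonneg.2 hg
  have w0 : 0 ≤ w := sub_nonneg.2 hw
  have B0 : 0 ≤ B := sub_nonneg.2 h2
  have p0 : 0 < P0 := by
    rcases h0.eq_or_lt with h3 | h3
    · rw [← h3, mul_zero] at j3
      linarith
    · exact h3
  have j4 := mul_le_mul_of_nonneg_left j2.le g0
  have j5 := mul_le_mul_of_nonneg_left j3.le w0
  have j6 := mul_lt_mul_of_pos_right j1 p0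
  linarith

theorem ins {K : ℝ} (hK : 0 ≤ K) {y : ℝ} (hy : 0 < y) : ∀ (k : ℕ) (l : List ℝ) (c : ℝ → ℕ),
    Antitone c → l.Pairwise (· ≤ ·) → (∀ v ∈ l, 0 < v) → l.countP (· < y) ≤ k →
    ∃ l' : List ℝ, l'.Pairwise (· ≤ ·) ∧ (∀ v ∈ l', v = y ∨ v ∈ l) ∧
      l'.countP (· < y) ≤ l.countP (· < y) ∧ W m μ K l' c ≤ W m μ K (y :: l) c := by
  intro k
  induction k with
  | zero =>
    intro l c _ hs _ hk
    have h0 := List.countP_eq_zero.1 (Nat.le_zero.1 hk)
    refine ⟨y :: l, List.pairwise_cons.2 ⟨fun v hv => ?_, hs⟩, fun v hv => by simpa using hv,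
      by simp, le_rfl⟩
    simpa using h0 v hv
  | succ k ih =>
    intro l c hc hs hl hk
    match l, hs, hl, hk with
    | [], _, _, _ => exact ⟨[y], by simp, by simp, by simp, le_rfl⟩
    | z :: l, hs, hl, hk =>
      obtain ⟨hz, hs'⟩ := List.pairwise_cons.1 hs
      have hl' : ∀ v ∈ l, 0 < v := fun v hv => hl v (by simp [hv])
      by_cases hyz : y ≤ z
      · refine ⟨y :: z :: l, List.pairwise_cons.2 ⟨fun v hv => ?_, hs⟩,
          fun v hv => by simpa using hv, by simp, le_rfl⟩
        rcases List.mem_cons.1 hv with rfl | hv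
        exacts [hyz, hyz.trans (hz v hv)]
      have hzy := not_le.1 hyz
      have hc1 : (z :: l).countP (· < y) = l.countP (· < y) + 1 := by simp [hzy]
      rw [hc1] at hk ⊢
      rcases exch (m := m) (μ := μ) hK hc (hl z (by simp)) hzy hl' with h | h | h
      · obtain ⟨l', h1, h2, h3, h4⟩ := ih l _ (add_e hc z) hs' hl' (by omega)
        refine ⟨z :: l', List.pairwise_cons.2 ⟨fun v hv => ?_, h1⟩, fun v hv => ?_, ?_, ?_⟩
        · rcases h2 v hv with rfl | hv
          exacts [hzy.le, hz v hv]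
        · rcases List.mem_cons.1 hv with rfl | hv
          · simp
          · rcases h2 v hv with rfl | hv <;> simp [*]
        · have : (z :: l').countP (· < y) = l'.countP (· < y) + 1 := by simp [hzy]
          omega
        · refine le_trans ?_ h
          rw [W_cons, W_cons K z]
          linarith
      · obtain ⟨l', h1, h2, h3, h4⟩ := ih l _ hc hs' hl' (by omega)
        refine ⟨l', h1, fun v hv => ?_, by omega, h4.trans h⟩
        rcases h2 v hv with rfl | hv <;> simp [*]
      · obtain ⟨l', h1, h2, h3, h4⟩ := ih l _ (add_e hc y) hs' hl' (by omega)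
        obtain ⟨l'', g1, g2, g3, g4⟩ := ih l' _ hc h1 (fun v hv => by
          rcases h2 v hv with rfl | hv
          exacts [hy, hl' v hv]) (by omega)
        refine ⟨l'', g1, fun v hv => ?_, by omega, g4.trans (le_trans ?_ h)⟩
        · rcases g2 v hv with rfl | hv
          · simp
          · rcases h2 v hv with rfl | hv <;> simp [*]
        · rw [W_cons, W_cons K y (y :: l)]
          linarith

/-- Every list of excursions may be replaced by an increasing one. -/
theorem sort {K : ℝ} (hK : 0 ≤ K) : ∀ (l : List ℝ) (c : ℝ → ℕ), Antitone c → (∀ v ∈ l, 0 < v) →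
    ∃ l' : List ℝ, l'.Pairwise (· ≤ ·) ∧ (∀ v ∈ l', 0 < v) ∧ W m μ K l' c ≤ W m μ K l c
  | [], _, _, _ => ⟨[], by simp, by simp, le_rfl⟩
  | y :: l, c, hc, hl => by
    have hy := hl y (by simp)
    obtain ⟨l', h1, h2, h3⟩ := sort hK l _ (add_e hc y) fun v hv => hl v (by simp [hv])
    obtain ⟨l'', g1, g2, -, g4⟩ := ins (m := m) (μ := μ) hK hy _ l' c hc h1 h2 le_rfl
    refine ⟨l'', g1, fun v hv => ?_, g4.trans ?_⟩
    · rcases g2 v hv with rfl | hv
      exacts [hy, h2 v hv]
    · simp only [W]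
      linarith

theorem sub_succ_eq (k : ℕ) : ∀ n : ℕ,
    ((n - (k + 1) : ℕ) : ℝ) = ∑ l ∈ Finset.range n, if k < l then 1 else 0
  | 0 => by simp
  | n + 1 => by
    rw [Finset.sum_range_succ, ← sub_succ_eq k n]
    split_ifs with h
    · have : n + 1 - (k + 1) = n - (k + 1) + 1 := by omega
      rw [this, Nat.cast_succ]
    · have : n + 1 - (k + 1) = n - (k + 1) := by omega
      rw [this, add_zero]

variable (m μ) in
/-- The potential of a state. -/
noncomputable def Psi (R : ℝ) (c : ℝ → ℕ) : ℝ :=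
  ∫ s, ∑ l ∈ Finset.range m, R ^ l * s * ((l - c s : ℕ) : ℝ) ∂μ

variable (m μ) in
/-- The balance inequality of the hider. -/
def Bal (R : ℝ) : Prop := ∀ y : ℝ, 0 < y →
  ∫ s, ∑ l ∈ Finset.range m, max (R ^ l * min s y - y) 0 ∂μ ≤
    (∑ l ∈ Finset.range m, R ^ l) * y * μ.real (Ioi y)

omit [IsFiniteMeasure μ] in
theorem int_psi (hi : Integrable (fun s : ℝ => s) μ) (R : ℝ) {c : ℝ → ℕ} (hc : Antitone c) :
    Integrable (fun s => ∑ l ∈ Finset.range m, R ^ l * s * ((l - c s : ℕ) : ℝ)) μ :=
  integrable_finsetSum _ fun l _ => (hi.const_mul _).mul_bdd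
    (meas_sub hc l).aestronglyMeasurable (Eventually.of_forall fun _ => norm_sub_le' _ _)

theorem step (hi : Integrable (fun s : ℝ => s) μ) {R : ℝ} (hB : Bal m μ R) {c : ℝ → ℕ}
    (hc : Antitone c) {y : ℝ} (hy : 0 < y) (h0 : ∀ t, y < t → c t = 0) :
    Psi m μ R c ≤ y * Un m μ (c + e y) + Psi m μ R (c + e y) := by
  have i1 : Integrable (fun s => ∑ l ∈ Finset.range m, max (R ^ l * min s y - y) 0) μ :=
    integrable_finsetSum _ fun l _ =>
      (((hi.inf (integrable_const y)).const_mul _).sub (integrable_const y)).pos_part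
  have i2 : Integrable ((Ioi y).indicator fun _ => (∑ l ∈ Finset.range m, R ^ l) * y) μ :=
    (integrable_const _).indicator measurableSet_Ioi
  have i3 := (int_sub (μ := μ) (add_e hc y) m).const_mul y
  have key := integral_mono ((int_psi (m := m) hi R hc).add i2)
    ((i3.add (int_psi (m := m) hi R (add_e hc y))).add i1) fun s => by
      simp only [Pi.add_apply, e]
      by_cases h : s ≤ y
      · rw [indicator_of_notMem (by simpa using h), if_pos h, min_eq_left h, add_zero,
          sub_succ_eq, Finset.mul_sum, ← Finset.sum_add_distrib, ← Finset.sum_add_distrib]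
        refine Finset.sum_le_sum fun l _ => ?_
        split_ifs with h1
        · have : l - c s = l - (c s + 1) + 1 := by omega
          rw [this, Nat.cast_succ]
          linarith [le_max_left (R ^ l * s - y) 0]
        · have : l - c s = l - (c s + 1) := by omega
          rw [this]
          linarith [le_max_right (R ^ l * s - y) 0]
      · have h' := not_le.1 h
        rw [indicator_of_mem (by simpa using h'), if_neg h, min_eq_right h'.le, h0 s h',
          Finset.sum_mul]
        have : ∑ l ∈ Finset.range m, R ^ l * y ≤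
            ∑ l ∈ Finset.range m, (y + max (R ^ l * y - y) 0) :=
          Finset.sum_le_sum fun l _ => by linarith [le_max_left (R ^ l * y - y) 0]
        rw [Finset.sum_add_distrib, Finset.sum_const, Finset.card_range, nsmul_eq_mul] at this
        simp only [add_zero, Nat.sub_zero]
        linarith
  rw [integral_add' (int_psi hi R hc) i2, integral_add' (i3.add (int_psi hi R (add_e hc y))) i1,
    integral_add' i3 (int_psi hi R (add_e hc y)), integral_const_mul,
    integral_indicator_const _ measurableSet_Ioi, smul_eq_mul] at key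
  have := hB y hy
  unfold Psi Un
  linarith

variable (m μ) in
/-- The error of the final penalty. -/
noncomputable def Er (R K : ℝ) : ℝ := ∫ s, ∑ l ∈ Finset.range m, m * max (R ^ l * s - K) 0 ∂μ

theorem int_er (hi : Integrable (fun s : ℝ => s) μ) (R K : ℝ) :
    Integrable (fun s => ∑ l ∈ Finset.range m, m * max (R ^ l * s - K) 0) μ :=
  integrable_finsetSum _ fun _ _ =>
    (((hi.const_mul _).sub (integrable_const K)).pos_part).const_mul _

theorem final (hi : Integrable (fun s : ℝ => s) μ) (R : ℝ) {K : ℝ} (hK : 0 ≤ K) {c : ℝ → ℕ}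
    (hc : Antitone c) : Psi m μ R c ≤ m * K * Un m μ c + Er m μ R K := by
  have i3 := (int_sub (μ := μ) hc m).const_mul (m * K)
  unfold Psi Un Er
  rw [← integral_const_mul, ← integral_add i3 (int_er hi R K)]
  refine integral_mono (int_psi hi R hc) (i3.add (int_er hi R K)) fun s => ?_
  have : ∑ l ∈ Finset.range m, R ^ l * s * ((l - c s : ℕ) : ℝ) ≤ ∑ l ∈ Finset.range m,
      (K * ((m - c s : ℕ) : ℝ) + m * max (R ^ l * s - K) 0) := by
    refine Finset.sum_le_sum fun l hl => ?_
    have hl' := Finset.mem_range.1 hl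
    have h1 : ((l - c s : ℕ) : ℝ) ≤ ((m - c s : ℕ) : ℝ) := Nat.cast_le.2 (by omega)
    have h2 : ((l - c s : ℕ) : ℝ) ≤ m := Nat.cast_le.2 (by omega)
    have h3 : R ^ l * s ≤ K + max (R ^ l * s - K) 0 := by
      linarith [le_max_left (R ^ l * s - K) 0]
    have h4 := mul_le_mul_of_nonneg_right h3 (Nat.cast_nonneg (α := ℝ) (l - c s))
    have h5 := mul_le_mul_of_nonneg_left h1 hK
    have h6 := mul_le_mul_of_nonneg_right h2 (le_max_right (R ^ l * s - K) 0)
    linarith
  rw [Finset.sum_add_distrib, Finset.sum_const, Finset.card_range, nsmul_eq_mul] at this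
  simp only
  linarith

theorem sorted_bound (hi : Integrable (fun s : ℝ => s) μ) {R : ℝ} (hB : Bal m μ R) {K : ℝ}
    (hK : 0 ≤ K) : ∀ (l : List ℝ) (c : ℝ → ℕ), Antitone c → l.Pairwise (· ≤ ·) →
      (∀ v ∈ l, 0 < v) → (∀ v ∈ l, ∀ t, v < t → c t = 0) →
      Psi m μ R c ≤ W m μ (m * K) l c + Er m μ R K
  | [], c, hc, _, _, _ => final hi R hK hc
  | y :: l, c, hc, hs, hl, h0 => by
    obtain ⟨hy, hs'⟩ := List.pairwise_cons.1 hs
    have h1 := step (m := m) hi hB hc (hl y (by simp)) (h0 y (by simp))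
    have h2 := sorted_bound hi hB hK l _ (add_e hc y) hs' (fun v hv => hl v (by simp [hv]))
      fun v hv t ht => by
        simp only [Pi.add_apply, e]
        rw [h0 v (by simp [hv]) t ht, if_neg (not_le.2 ((hy v hv).trans_lt ht))]
    rw [W_cons]
    linarith

theorem er_tendsto (hi : Integrable (fun s : ℝ => s) μ) (R : ℝ) :
    Tendsto (fun n : ℕ => Er m μ R n) atTop (𝓝 0) := by
  have := tendsto_integral_of_dominated_convergence (μ := μ)
    (F := fun (n : ℕ) s => ∑ l ∈ Finset.range m, m * max (R ^ l * s - n) 0) (f := fun _ => (0 : ℝ))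
    (fun s => ∑ l ∈ Finset.range m, m * max (R ^ l * s - 0) 0)
    (fun n => (int_er hi R n).aestronglyMeasurable) (int_er hi R 0)
    (fun n => Eventually.of_forall fun s => by
      rw [Real.norm_of_nonneg (by positivity)]
      have : (0 : ℝ) ≤ n := Nat.cast_nonneg n
      gcongr)
    (Eventually.of_forall fun s => by
      have h := tendsto_finsetSum (Finset.range m) (f := fun l (n : ℕ) =>
        (m : ℝ) * max (R ^ l * s - n) 0) (a := fun _ => 0) (x := atTop) fun l _ => by
          refine tendsto_const_nhds.congr' ?_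
          filter_upwards [tendsto_natCast_atTop_atTop.eventually_ge_atTop (R ^ l * s)] with n hn
          rw [max_eq_right (by linarith), mul_zero]
      simpa using h)
  simpa [Er] using this

/-- The number of the first `n` excursions that reach a level. -/
noncomputable def cnt (y : ℕ → ℝ) (n : ℕ) : ℝ → ℕ := ∑ j ∈ Finset.range n, e (y j)

theorem cnt_anti (y : ℕ → ℝ) : ∀ n, Antitone (cnt y n)
  | 0 => antitone_const
  | n + 1 => by
    rw [cnt, Finset.sum_range_succ]
    exact add_e (cnt_anti y n) _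

omit [IsFiniteMeasure μ] in
theorem W_range (K : ℝ) : ∀ (n : ℕ) (y : ℕ → ℝ) (c : ℝ → ℕ),
    W m μ K ((List.range n).map y) c =
      ∑ k ∈ Finset.range n, y k * Un m μ (c + cnt y (k + 1)) + K * Un m μ (c + cnt y n)
  | 0, y, c => by simp [W, cnt]
  | n + 1, y, c => by
    have h : ∀ k, c + e (y 0) + cnt (y ∘ Nat.succ) k = c + cnt y (k + 1) := fun k => by
      rw [cnt, cnt, Finset.sum_range_succ', add_assoc, add_comm (e (y 0))]
      rfl
    rw [List.range_succ_eq_map, List.map_cons, List.map_map, W_cons, W_range K n,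
      Finset.sum_range_succ', ← h 0]
    simp only [h, Function.comp_apply]
    have : c + e (y 0) = c + cnt y (0 + 1) := by simp [cnt]
    rw [this]
    ring

/-- The lower bound for the relaxed cost of an arbitrary sequence of excursions. -/
theorem seq_bound (hi : Integrable (fun s : ℝ => s) μ) {R : ℝ} (hB : Bal m μ R) {δ C : ℝ}
    (hδ : 0 < δ) {y : ℕ → ℝ} (hy : ∀ k, δ ≤ y k)
    (hC : ∀ n, ∑ k ∈ Finset.range n, y k * Un m μ (cnt y (k + 1)) ≤ C) :
    (∑ l ∈ Finset.range m, R ^ l * l) * ∫ s, s ∂μ ≤ C := by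
  have h0 : Psi m μ R 0 = (∑ l ∈ Finset.range m, R ^ l * l) * ∫ s, s ∂μ := by
    rw [← integral_const_mul, Psi]
    congr 1
    funext s
    rw [Finset.sum_mul]
    refine Finset.sum_congr rfl fun l _ => ?_
    simp only [Pi.zero_apply, Nat.sub_zero]
    ring
  have hs : Summable fun k => y k * Un m μ (cnt y (k + 1)) :=
    summable_of_sum_range_le (fun k => mul_nonneg (hδ.le.trans (hy k)) (P_nonneg _)) hC
  have ht : Tendsto (fun k => Un m μ (cnt y (k + 1))) atTop (𝓝 0) := by
    have h1 := hs.tendsto_atTop_zero.div_const δ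
    rw [zero_div] at h1
    refine squeeze_zero (fun _ => P_nonneg _) (fun k => ?_) h1
    rw [le_div_iff₀ hδ, mul_comm]
    exact mul_le_mul_of_nonneg_right (hy k) (P_nonneg _)
  have h2 : ∀ N : ℕ, Psi m μ R 0 ≤ C + Er m μ R N := by
    intro N
    have hK : (0 : ℝ) ≤ m * N := by positivity
    have h3 := ((ht.const_mul ((m : ℝ) * N)).const_add C).add_const (Er m μ R N)
    rw [mul_zero, add_zero] at h3
    refine ge_of_tendsto' h3 fun n => ?_
    obtain ⟨l, g1, g2, g3⟩ := sort (m := m) (μ := μ) hK ((List.range (n + 1)).map y) 0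
      antitone_const fun v hv => by
        obtain ⟨k, -, rfl⟩ := List.mem_map.1 hv
        exact hδ.trans_le (hy k)
    have g4 := sorted_bound (m := m) hi hB (Nat.cast_nonneg N) l 0 antitone_const g1 g2
      fun _ _ _ _ => rfl
    rw [W_range] at g3
    simp only [zero_add] at g3
    linarith [hC (n + 1)]
  have h4 := (er_tendsto (m := m) hi R).const_add C
  rw [add_zero] at h4
  rw [← h0]
  exact ge_of_tendsto' h4 h2

end Pool.Agent.P.MP_5c5fd6_lc.Star
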