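import Mathlib

/-!
The search game on a star with `m` rays and a turning cost; the line is the case `m = 2`.
A point is a pair (ray, distance from the origin). A pure strategy of the searcher is the sequence
`S` of its turning points: in excursion `k` it walks with unit speed from the origin along the ray
`(S k).1` to the distance `(S k).2`, spends the time `d` on turning, and walks back to the origin.
-/

namespace Pool.Agent.P.MP_5c5fd6_lc.Star

open MeasureTheory
open scoped ENNReal NNReal

/-- The time at which excursion `k` leaves the origin. -/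
def start {m : ℕ} (d : ℝ) (S : ℕ → Fin m × ℝ≥0) (k : ℕ) : ℝ :=
  ∑ j ∈ Finset.range k, (2 * ((S j).2 : ℝ) + d)

/-- The first time at which the searcher is at the point `H`, and `+∞` if it never is.
The origin lies on every ray. -/
noncomputable def cost {m : ℕ} (d : ℝ) (S : ℕ → Fin m × ℝ≥0) (H : Fin m × ℝ≥0) : ℝ≥0∞ :=
  ⨅ (k : ℕ) (_ : ((S k).1 = H.1 ∨ H.2 = 0) ∧ H.2 ≤ (S k).2), ENNReal.ofReal (start d S k + H.2)

/-- A hiding strategy: a probability distribution with mean distance at most one. -/
def Hider {m : ℕ} (h : Measure (Fin m × ℝ≥0)) : Prop :=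
  IsProbabilityMeasure h ∧ ∫⁻ H, (H.2 : ℝ≥0∞) ∂h ≤ 1

/-- What the hider can guarantee against all pure search strategies. -/
noncomputable def lowerVal (m : ℕ) (d : ℝ) : ℝ≥0∞ :=
  ⨆ (h : Measure (Fin m × ℝ≥0)) (_ : Hider h), ⨅ S : ℕ → Fin m × ℝ≥0, ∫⁻ H, cost d S H ∂h

/-- The expected capture time of the mixed search strategy `s` against the worst hider. -/
noncomputable def worst {m : ℕ} (d : ℝ) (s : Measure (ℕ → Fin m × ℝ≥0)) : ℝ≥0∞ :=
  ⨆ (h : Measure (Fin m × ℝ≥0)) (_ : Hider h), ∫⁻ S, ∫⁻ H, cost d S H ∂h ∂s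

/-- What the searcher can guarantee with mixed strategies. -/
noncomputable def upperVal (m : ℕ) (d : ℝ) : ℝ≥0∞ :=
  ⨅ (s : Measure (ℕ → Fin m × ℝ≥0)) (_ : IsProbabilityMeasure s), worst d s

end Pool.Agent.P.MP_5c5fd6_lc.Star
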