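import Pool.Agent.P.MP_5c5fd6_lc.StarComb

/-!
The distribution of the hider: a geometric number of independent random factors.
-/

namespace Pool.Agent.P.MP_5c5fd6_lc.Star

open MeasureTheory Set Filter Topology
open scoped ENNReal

/-- The sum of the first `m` powers. -/
def Sm (m : ℕ) (R : ℝ) : ℝ := ∑ l ∈ Finset.range m, R ^ l

/-- The defective law of the reciprocal of one factor. -/
noncomputable def kap (m : ℕ) (R : ℝ) : Measure ℝ :=
  ∑ l ∈ Finset.range m, ENNReal.ofReal (R ^ l / Sm m R) • volume.restrict (Ioc (R ^ l)⁻¹ 1)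

/-- The part of the law of the hider with exactly `n` factors. -/
noncomputable def mu (m : ℕ) (R b : ℝ) : ℕ → Measure ℝ
  | 0 => ENNReal.ofReal (m / Sm m R) • Measure.dirac b
  | n + 1 => ((mu m R b n).prod (kap m R)).map fun p => p.1 / p.2

variable {m : ℕ} {R b : ℝ}

theorem lint_kap (f : ℝ → ℝ≥0∞) : ∫⁻ v, f v ∂kap m R = ∑ l ∈ Finset.range m,
    ENNReal.ofReal (R ^ l / Sm m R) * ∫⁻ v in Ioc (R ^ l)⁻¹ 1, f v := by
  simp only [kap, lintegral_finsetSum_measure, lintegral_smul_measure, smul_eq_mul]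

instance : IsFiniteMeasure (kap m R) := by
  constructor
  rw [← lintegral_one, lint_kap]
  refine ENNReal.sum_lt_top.2 fun l _ => ENNReal.mul_lt_top ENNReal.ofReal_lt_top ?_
  simp

theorem lint_succ {φ : ℝ → ℝ≥0∞} (hφ : Measurable φ) (n : ℕ) :
    ∫⁻ s, φ s ∂mu m R b (n + 1) = ∫⁻ s, ∫⁻ v, φ (s / v) ∂kap m R ∂mu m R b n := by
  have h : Measurable fun p : ℝ × ℝ => p.1 / p.2 := measurable_fst.div measurable_snd
  rw [mu, lintegral_map hφ h]
  exact lintegral_prod _ (hφ.comp h).aemeasurable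

theorem eigen {φ : ℝ → ℝ≥0∞} (hφ : Measurable φ) {θ : ℝ≥0∞}
    (h : ∀ s, ∫⁻ v, φ (s / v) ∂kap m R = θ * φ s) :
    ∫⁻ s, φ s ∂Measure.sum (mu m R b) = (1 - θ)⁻¹ * (ENNReal.ofReal (m / Sm m R) * φ b) := by
  have key : ∀ n, ∫⁻ s, φ s ∂mu m R b n = θ ^ n * (ENNReal.ofReal (m / Sm m R) * φ b) := by
    intro n
    induction n with
    | zero => simp [mu]
    | succ n ih =>
      rw [lint_succ hφ]
      simp only [h]
      rw [lintegral_const_mul _ hφ, ih, pow_succ', mul_assoc]
  rw [lintegral_sum_measure]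
  simp only [key]
  rw [ENNReal.tsum_mul_right, ENNReal.tsum_geometric]

theorem Sm_ge (hR : 1 < R) : (m : ℝ) ≤ Sm m R := by
  have : ∑ _l ∈ Finset.range m, (1 : ℝ) ≤ Sm m R :=
    Finset.sum_le_sum fun l _ => one_le_pow₀ hR.le
  simpa using this

theorem mu_supp (hR : 1 < R) (hb : 0 < b) : ∀ n, ∀ᵐ s ∂mu m R b n, b ≤ s
  | 0 => by
    rw [mu]
    exact Measure.ae_smul_measure (by simp) _
  | n + 1 => by
    have h : {s | ¬b ≤ s} = Iio b := by ext s; simp
    rw [ae_iff, h, ← lintegral_indicator_one measurableSet_Iio,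
      lint_succ (measurable_one.indicator measurableSet_Iio), ← lintegral_zero (μ := mu m R b n)]
    refine lintegral_congr_ae ((mu_supp hR hb n).mono fun s hs => ?_)
    simp only
    rw [lint_kap]
    refine Finset.sum_eq_zero fun l _ => mul_eq_zero_of_right _ ?_
    refine setLIntegral_eq_zero measurableSet_Ioc fun v hv => ?_
    have hv0 : 0 < v := lt_trans (by positivity) hv.1
    have : s ≤ s / v := by
      rw [le_div_iff₀ hv0]
      exact mul_le_of_le_one_right (by linarith) hv.2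
    simp only [Pi.zero_apply]
    exact indicator_of_notMem (by simp only [mem_Iio, not_lt]; linarith) _

theorem mass (hm : 0 < m) (hR : 1 < R) : IsProbabilityMeasure (Measure.sum (mu m R b)) := by
  have hm' : (0 : ℝ) < m := Nat.cast_pos.2 hm
  have hS := Sm_ge (m := m) hR
  have hS0 : 0 < Sm m R := hm'.trans_le hS
  constructor
  rw [← lintegral_one, eigen measurable_const (θ := ENNReal.ofReal (1 - m / Sm m R))]
  · rw [← ENNReal.ofReal_one, ← ENNReal.ofReal_sub _ (by rw [sub_nonneg, div_le_one hS0]; exact hS),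
      sub_sub_cancel, ENNReal.ofReal_one, mul_one,
      ENNReal.inv_mul_cancel (by simpa using div_pos hm' hS0) ENNReal.ofReal_ne_top]
  · intro s
    have h : ∀ l ∈ Finset.range m, ENNReal.ofReal (R ^ l / Sm m R) *
        ∫⁻ _ in Ioc (R ^ l)⁻¹ 1, (1 : ℝ≥0∞) = ENNReal.ofReal ((R ^ l - 1) / Sm m R) := by
      intro l _
      rw [setLIntegral_one, Real.volume_Ioc, ← ENNReal.ofReal_mul (by positivity)]
      congr 1
      field_simp
    rw [lint_kap, Finset.sum_congr rfl h, ← ENNReal.ofReal_sum_of_nonneg fun l _ =>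
      div_nonneg (sub_nonneg.2 (one_le_pow₀ hR.le)) hS0.le, mul_one, ← Finset.sum_div,
      Finset.sum_sub_distrib, sub_div]
    simp only [Finset.sum_const, Finset.card_range, nsmul_eq_mul, mul_one]
    rw [← Sm, div_self hS0.ne']

theorem mean (hm : 0 < m) (hR : 1 < R) (hb : 0 < b)
    (hD : 0 < Sm m R - Real.log R * ∑ l ∈ Finset.range m, R ^ l * l) :
    ∫⁻ s, ENNReal.ofReal s ∂Measure.sum (mu m R b) =
      ENNReal.ofReal (m * b / (Sm m R - Real.log R * ∑ l ∈ Finset.range m, R ^ l * l)) := by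
  have hm' : (0 : ℝ) < m := Nat.cast_pos.2 hm
  have hS0 : 0 < Sm m R := hm'.trans_le (Sm_ge hR)
  have ha := Real.log_pos hR
  set Q := ∑ l ∈ Finset.range m, R ^ l * l with hQ
  have hQ0 : 0 ≤ Q := by positivity
  rw [eigen ENNReal.measurable_ofReal (θ := ENNReal.ofReal (Real.log R * Q / Sm m R))]
  · have h1 : 1 - Real.log R * Q / Sm m R = (Sm m R - Real.log R * Q) / Sm m R := by field_simp
    rw [← ENNReal.ofReal_one, ← ENNReal.ofReal_sub _ (by positivity), h1,
      ← ENNReal.ofReal_inv_of_pos (by positivity), ← ENNReal.ofReal_mul (by positivity),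
      ← ENNReal.ofReal_mul (by positivity)]
    congr 1
    field_simp
  · intro s
    have h : ∀ l ∈ Finset.range m, ENNReal.ofReal (R ^ l / Sm m R) *
        ∫⁻ v in Ioc (R ^ l)⁻¹ 1, ENNReal.ofReal (s / v) =
          ENNReal.ofReal (Real.log R * (R ^ l * l) / Sm m R) * ENNReal.ofReal s := by
      intro l _
      have h0 : 0 < (R ^ l)⁻¹ := by positivity
      have h1 : (R ^ l)⁻¹ ≤ 1 := inv_le_one_of_one_le₀ (one_le_pow₀ hR.le)
      have h2 : ∫⁻ v in Ioc (R ^ l)⁻¹ 1, ENNReal.ofReal (s / v) =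
          ∫⁻ v in Ioc (R ^ l)⁻¹ 1, ENNReal.ofReal v⁻¹ * ENNReal.ofReal s :=
        setLIntegral_congr_fun measurableSet_Ioc fun v hv => by
          rw [← ENNReal.ofReal_mul (inv_pos.2 (h0.trans hv.1)).le, div_eq_inv_mul]
      have h3 : IntegrableOn (fun v : ℝ => v⁻¹) (Ioc (R ^ l)⁻¹ 1) :=
        (ContinuousOn.integrableOn_Icc (continuousOn_inv₀.mono fun v hv =>
          (h0.trans_le hv.1).ne')).mono_set Ioc_subset_Icc_self
      rw [h2, lintegral_mul_const _ measurable_inv.ennreal_ofReal,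
        ← ofReal_integral_eq_lintegral_ofReal h3 ((ae_restrict_mem measurableSet_Ioc).mono
          fun v hv => (inv_pos.2 (h0.trans hv.1)).le), ← intervalIntegral.integral_of_le h1,
        integral_inv_of_pos h0 one_pos, ← mul_assoc, ← ENNReal.ofReal_mul (by positivity),
        one_div, inv_inv, Real.log_pow]
      congr 2
      ring
    rw [lint_kap, Finset.sum_congr rfl h, ← Finset.sum_mul,
      ← ENNReal.ofReal_sum_of_nonneg fun l _ => by positivity, ← Finset.sum_div, ← Finset.mul_sum]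

theorem bal (hm : 0 < m) (hR : 1 < R) : Bal m (Measure.sum (mu m R b)) R := by
  intro y hy
  have := mass (b := b) hm hR
  have hS0 : 0 < Sm m R := (Nat.cast_pos.2 hm).trans_le (Sm_ge hR)
  have hφ : Measurable ((Ioi y).indicator (1 : ℝ → ℝ≥0∞)) :=
    measurable_one.indicator measurableSet_Ioi
  have key : ∫⁻ s, ENNReal.ofReal ((∑ l ∈ Finset.range m, max (R ^ l * min s y - y) 0) /
      (Sm m R * y)) ∂Measure.sum (mu m R b) ≤ Measure.sum (mu m R b) (Ioi y) := by
    rw [← lintegral_indicator_one measurableSet_Ioi, lintegral_sum_measure, lintegral_sum_measure]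
    refine le_trans (ENNReal.tsum_le_tsum fun n => ?_) (ENNReal.tsum_comp_le_tsum_of_injective
      Nat.succ_injective fun n => ∫⁻ s, (Ioi y).indicator 1 s ∂mu m R b n)
    rw [lint_succ hφ]
    refine lintegral_mono fun s => ?_
    simp only
    rw [lint_kap, Finset.sum_div, ENNReal.ofReal_sum_of_nonneg fun l _ => by positivity]
    refine Finset.sum_le_sum fun l _ => ?_
    have h0 : 0 < (R ^ l)⁻¹ := by positivity
    have h1 : ENNReal.ofReal (min 1 (s / y) - (R ^ l)⁻¹) ≤
        ∫⁻ v in Ioc (R ^ l)⁻¹ 1, (Ioi y).indicator (1 : ℝ → ℝ≥0∞) (s / v) := by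
      rw [← Real.volume_Ioo, ← setLIntegral_one]
      refine le_trans (setLIntegral_mono' measurableSet_Ioo fun v hv => ?_)
        (lintegral_mono_set fun v hv => ⟨hv.1, (hv.2.trans_le (min_le_left _ _)).le⟩)
      have h2 := hv.2.trans_le (min_le_right _ _)
      rw [lt_div_iff₀ hy] at h2
      rw [indicator_of_mem (by rw [mem_Ioi, lt_div_iff₀ (h0.trans hv.1)]; linarith)]
      rfl
    refine le_trans ?_ (mul_le_mul_right h1 _)
    rw [← ENNReal.ofReal_mul (by positivity), ← max_div_div_right (by positivity), zero_div,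
      ENNReal.ofReal_max, ENNReal.ofReal_zero, max_eq_left zero_le]
    refine le_of_eq (congrArg _ ?_)
    have h3 : min 1 (s / y) = min s y / y := by
      rw [← min_div_div_right hy.le, div_self hy.ne', min_comm]
    rw [h3]
    field_simp
  have hc : Continuous fun s : ℝ => (∑ l ∈ Finset.range m, max (R ^ l * min s y - y) 0) /
      (Sm m R * y) := by fun_prop
  have h4 := ENNReal.toReal_mono (measure_ne_top _ _) key
  rw [← integral_eq_lintegral_of_nonneg_ae (Eventually.of_forall fun s => by positivity)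
    hc.aestronglyMeasurable, integral_div, div_le_iff₀' (by positivity)] at h4
  exact h4

/-- The hider: all that is used about the distribution. -/
theorem exists_law (hm : 0 < m) (hR : 1 < R) (hb : 0 < b)
    (hD : 0 < Sm m R - Real.log R * ∑ l ∈ Finset.range m, R ^ l * l) :
    ∃ μ : Measure ℝ, IsProbabilityMeasure μ ∧ (∀ᵐ s ∂μ, b ≤ s) ∧ Integrable (fun s : ℝ => s) μ ∧
      ∫ s, s ∂μ = m * b / (Sm m R - Real.log R * ∑ l ∈ Finset.range m, R ^ l * l) ∧ Bal m μ R := by
  have h1 : ∀ᵐ s ∂Measure.sum (mu m R b), b ≤ s := Measure.ae_sum_iff.2 (mu_supp hR hb)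
  have h2 : 0 ≤ᵐ[Measure.sum (mu m R b)] fun s : ℝ => s := h1.mono fun s hs => hb.le.trans hs
  have h3 := mean hm hR hb hD
  refine ⟨_, mass hm hR, h1, ⟨aestronglyMeasurable_id, ?_⟩, ?_, bal hm hR⟩
  · rw [hasFiniteIntegral_iff_ofReal h2, h3]
    exact ENNReal.ofReal_lt_top
  · rw [integral_eq_lintegral_of_nonneg_ae h2 aestronglyMeasurable_id, h3,
      ENNReal.toReal_ofReal (by positivity)]

end Pool.Agent.P.MP_5c5fd6_lc.Star
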