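import Pool.Agent.P.MP_5c5fd6_lc.StarDefs
import Pool.Agent.P.MP_5c5fd6_lc.StarRenew

/-!
Measurability of the cost and the lower bound for the star game.
-/

namespace Pool.Agent.P.MP_5c5fd6_lc.Star

open MeasureTheory Set Filter Topology
open scoped ENNReal NNReal

variable {m : ℕ}

theorem cost_meas (d : ℝ) :
    Measurable fun p : (ℕ → Fin m × ℝ≥0) × (Fin m × ℝ≥0) => cost d p.1 p.2 := by
  classical
  refine Measurable.iInf fun k => ?_
  simp only [iInf_eq_if]
  refine Measurable.ite ?_ ?_ measurable_const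
  · exact ((measurableSet_eq_fun (by fun_prop) (by fun_prop)).union
      (measurableSet_eq_fun (by fun_prop) (by fun_prop))).inter
      (measurableSet_le (by fun_prop) (by fun_prop))
  · unfold start
    fun_prop

/-- The uniform distribution on the rays. -/
noncomputable def un (m : ℕ) : Measure (Fin m) := (m : ℝ≥0∞)⁻¹ • Measure.count

theorem un_prob (hm : 0 < m) : IsProbabilityMeasure (un m) := by
  constructor
  rw [un, Measure.smul_apply, Measure.count_univ]
  simpa using ENNReal.inv_mul_cancel (Nat.cast_ne_zero.2 hm.ne') (ENNReal.natCast_ne_top m)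

theorem lint_un (hm : 0 < m) (ν : Measure ℝ) [SFinite ν] {f : Fin m × ℝ → ℝ≥0∞}
    (hf : Measurable f) :
    ∫⁻ p, f p ∂(un m).prod ν = ∫⁻ u, (m : ℝ≥0∞)⁻¹ * ∑ c, f (c, u) ∂ν := by
  have := un_prob hm
  rw [lintegral_prod_symm' f hf]
  simp only [un, lintegral_smul_measure, lintegral_count, tsum_fintype, smul_eq_mul]

theorem inv_mul_ofReal (hm : 0 < m) (x : ℝ) :
    (m : ℝ≥0∞)⁻¹ * ENNReal.ofReal (m * x) = ENNReal.ofReal x := by
  rw [ENNReal.ofReal_mul (Nat.cast_nonneg m), ENNReal.ofReal_natCast, ← mul_assoc,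
    ENNReal.inv_mul_cancel (Nat.cast_ne_zero.2 hm.ne') (ENNReal.natCast_ne_top m), one_mul]

theorem sum_cost {d : ℝ} (hd : 0 < d) (S : ℕ → Fin m × ℝ≥0) {s : ℝ} (hs : d / 2 < s) (n : ℕ) :
    ENNReal.ofReal (m * (s - d / 2) + ∑ k ∈ Finset.range n, 2 * ((S k).2 + d / 2) *
      ((m - cnt (fun j => (S j).2 + d / 2) (k + 1) s : ℕ) : ℝ)) ≤
      ∑ ρ, cost d S (ρ, (s - d / 2).toNNReal) := by
  classical
  have hr : (((s - d / 2).toNNReal : ℝ≥0) : ℝ) = s - d / 2 := Real.coe_toNNReal _ (by linarith)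
  let nf : Fin m → ℕ → Prop := fun ρ k =>
    ¬∃ j ∈ Finset.range (k + 1), s ≤ (S j).2 + d / 2 ∧ (S j).1 = ρ
  have h1 : ∀ ρ, ENNReal.ofReal (s - d / 2 + ∑ k ∈ Finset.range n,
      2 * ((S k).2 + d / 2) * if nf ρ k then 1 else 0) ≤ cost d S (ρ, (s - d / 2).toNNReal) := by
    intro ρ
    refine le_iInf₂ fun k0 hk => ENNReal.ofReal_le_ofReal ?_
    obtain ⟨h2, h3⟩ := hk
    have h4 : (S k0).1 = ρ := h2.resolve_right fun h => by
      have : (((s - d / 2).toNNReal : ℝ≥0) : ℝ) = 0 := by exact_mod_cast h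
      linarith
    have h5 : s - d / 2 ≤ (S k0).2 := by
      rw [← hr]
      exact_mod_cast h3
    simp only [hr, mul_ite, mul_one, mul_zero]
    rw [← Finset.sum_filter, add_comm, start]
    refine add_le_add_left ((Finset.sum_le_sum_of_subset_of_nonneg (t := Finset.range k0)
      (fun k hk => ?_) fun k _ _ => by positivity).trans_eq
        (Finset.sum_congr rfl fun k _ => by ring)) _
    rw [Finset.mem_range]
    by_contra h6
    exact (Finset.mem_filter.1 hk).2 ⟨k0, Finset.mem_range.2 (by omega), by linarith, h4⟩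
  refine le_trans ?_ (Finset.sum_le_sum fun ρ _ => h1 ρ)
  rw [← ENNReal.ofReal_sum_of_nonneg fun ρ _ => add_nonneg (by linarith)
    (Finset.sum_nonneg fun k _ => by positivity)]
  refine ENNReal.ofReal_le_ofReal ?_
  rw [Finset.sum_add_distrib, Finset.sum_const, Finset.card_univ, Fintype.card_fin, nsmul_eq_mul,
    Finset.sum_comm]
  refine add_le_add_right (Finset.sum_le_sum fun k _ => ?_) _
  rw [← Finset.mul_sum, Finset.sum_boole]
  refine mul_le_mul_of_nonneg_left (Nat.cast_le.2 ?_) (by positivity)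
  have h7 := Finset.card_filter_add_card_filter_not (s := Finset.univ) fun ρ => nf ρ k
  have h8 : cnt (fun j => ((S j).2 : ℝ) + d / 2) (k + 1) s =
      ((Finset.range (k + 1)).filter fun j => s ≤ (S j).2 + d / 2).card := by
    rw [cnt, Finset.sum_apply, Finset.card_filter]
    rfl
  have h9 : (Finset.univ.filter fun ρ => ¬nf ρ k).card ≤
      ((Finset.range (k + 1)).filter fun j => s ≤ (S j).2 + d / 2).card := by
    refine le_trans (Finset.card_le_card fun ρ hρ => ?_)
      (Finset.card_image_le (f := fun j => (S j).1))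
    obtain ⟨j, h, h', h''⟩ := not_not.1 (Finset.mem_filter.1 hρ).2
    exact Finset.mem_image.2 ⟨j, Finset.mem_filter.2 ⟨h, h'⟩, h''⟩
  rw [Finset.card_univ, Fintype.card_fin] at h7
  omega

/-- The strategy of the hider with ratio `R` and mean `M - d / 2`. -/
theorem hider_bound (hm : 0 < m) {d R M : ℝ} (hd : 0 < d) (hR : 1 < R) (hM : 0 < M)
    (hD : m * (d / 2) < M * (Sm m R - Real.log R * ∑ l ∈ Finset.range m, R ^ l * l)) :
    ∃ h : Measure (Fin m × ℝ≥0), IsProbabilityMeasure h ∧
      ∫⁻ H, (H.2 : ℝ≥0∞) ∂h = ENNReal.ofReal (M - d / 2) ∧ d / 2 ≤ M ∧ ∀ S : ℕ → Fin m × ℝ≥0,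
        ENNReal.ofReal (M - d / 2 + 2 / m * (∑ l ∈ Finset.range m, R ^ l * l) * M) ≤
          ∫⁻ H, cost d S H ∂h := by
  have hm' : (0 : ℝ) < m := Nat.cast_pos.2 hm
  set D := Sm m R - Real.log R * ∑ l ∈ Finset.range m, R ^ l * l with hDd
  have hD0 : 0 < D := pos_of_mul_pos_right ((by positivity : 0 < m * (d / 2)).trans hD) hM.le
  have hb : d / 2 < M * D / m := by
    rw [lt_div_iff₀ hm']
    linarith
  obtain ⟨μ, hp, hs, hi, hmean, hB⟩ := exists_law hm hR ((half_pos hd).trans hb) hD0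
  have hmean' : ∫ s, s ∂μ = M := by
    rw [hmean, ← hDd]
    field_simp
  have hs' : ∀ᵐ s ∂μ, d / 2 < s := hs.mono fun s h => hb.trans_le h
  have := un_prob hm
  have hG : Measurable fun p : Fin m × ℝ => (p.1, (p.2 - d / 2).toNNReal) := by fun_prop
  have i1 : Integrable (fun s : ℝ => s - d / 2) μ := hi.sub (integrable_const _)
  have e1 : ∫ s, s - d / 2 ∂μ = M - d / 2 := by
    rw [integral_sub hi (integrable_const _), hmean']
    simp
  have hMd : d / 2 ≤ M := by
    rw [← sub_nonneg, ← e1]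
    exact integral_nonneg_of_ae (hs'.mono fun s h => sub_nonneg.2 h.le)
  refine ⟨((un m).prod μ).map fun p => (p.1, (p.2 - d / 2).toNNReal),
    Measure.isProbabilityMeasure_map hG.aemeasurable, ?_, hMd, fun S => ?_⟩
  · rw [lintegral_map (by fun_prop) hG, lintegral_prod _ (by fun_prop), ← e1,
      ofReal_integral_eq_lintegral_ofReal i1 (hs'.mono fun s h => sub_nonneg.2 h.le)]
    simp [ENNReal.ofReal]
  have hc : Measurable (cost d S) := (cost_meas d).comp (measurable_const.prodMk measurable_id)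
  rw [lintegral_map hc hG, lint_un hm μ (f := fun p => cost d S (p.1, (p.2 - d / 2).toNNReal))
    (hc.comp hG)]
  set I := ∫⁻ u, (m : ℝ≥0∞)⁻¹ * ∑ c, cost d S (c, (u - d / 2).toNNReal) ∂μ with hI
  rcases eq_or_ne I ⊤ with h | h
  · rw [h]
    exact le_top
  have key := seq_bound (m := m) hi hB (half_pos hd) (y := fun j => (S j).2 + d / 2)
    (C := (I.toReal - (M - d / 2)) * m / 2) (fun k => le_add_of_nonneg_left (S k).2.2) fun n => by
      have i2 : ∀ k ∈ Finset.range n, Integrable (fun s => 2 / m * (((S k).2 + d / 2) *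
          ((m - cnt (fun j => (S j).2 + d / 2) (k + 1) s : ℕ) : ℝ))) μ := fun k _ =>
        ((int_sub (cnt_anti _ _) m).const_mul _).const_mul _
      have h1 : ENNReal.ofReal (∫ s, (s - d / 2 + ∑ k ∈ Finset.range n, 2 / m * (((S k).2 + d / 2) *
          ((m - cnt (fun j => (S j).2 + d / 2) (k + 1) s : ℕ) : ℝ))) ∂μ) ≤ I := by
        refine (ofReal_integral_eq_lintegral_ofReal (i1.add (integrable_finsetSum _ i2))
          (hs'.mono fun s h => add_nonneg (sub_nonneg.2 h.le) (by positivity))).trans_le ?_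
        refine lintegral_mono_ae (hs'.mono fun s h => ?_)
        refine le_trans ?_ (mul_le_mul_right (sum_cost hd S h n) _)
        rw [← inv_mul_ofReal hm, Pi.add_apply, mul_add, Finset.mul_sum]
        refine le_of_eq ?_
        congr 3
        refine Finset.sum_congr rfl fun k _ => ?_
        field_simp
      rw [ENNReal.ofReal_le_iff_le_toReal h, integral_add i1 (integrable_finsetSum _ i2), e1,
        integral_finsetSum _ i2] at h1
      simp only [integral_const_mul, ← Finset.mul_sum] at h1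
      rw [le_div_iff₀ two_pos, ← div_le_iff₀ hm']
      unfold Un
      rw [mul_div_assoc]
      linarith
  rw [ENNReal.ofReal_le_iff_le_toReal h]
  rw [hmean', le_div_iff₀ two_pos, ← div_le_iff₀ hm', mul_div_assoc] at key
  linarith

end Pool.Agent.P.MP_5c5fd6_lc.Star
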