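import Pool.Agent.P.MP_5c5fd6_lc.StarLow

/-!
The randomised geometric strategy of the searcher and the value of the star game.
-/

namespace Pool.Agent.P.MP_5c5fd6_lc.Star

open MeasureTheory Set Filter Topology
open scoped ENNReal NNReal

variable {m : ℕ}

/-- The geometric trajectory with first ray `p.1` and phase `p.2`. -/
noncomputable def geo [NeZero m] (d a : ℝ) (p : Fin m × ℝ) (k : ℕ) : Fin m × ℝ≥0 :=
  (p.1 + Fin.ofNat m k, (d / 2 * (Real.exp (a * (k + p.2)) - 1)).toNNReal)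

theorem geo_meas [NeZero m] (d a : ℝ) : Measurable (geo (m := m) d a) := by
  refine measurable_pi_lambda _ fun k => Measurable.prodMk ?_ (by fun_prop)
  exact (measurable_of_countable fun c : Fin m => c + Fin.ofNat m k).comp measurable_fst

theorem geo_val [NeZero m] {d a u : ℝ} (hd : 0 < d) (ha : 0 < a) (hu : 0 ≤ u) (c : Fin m) (k : ℕ) :
    ((geo d a (c, u) k).2 : ℝ) = d / 2 * (Real.exp (a * (k + u)) - 1) :=
  Real.coe_toNNReal _ (mul_nonneg (by positivity)
    (sub_nonneg.2 (Real.one_le_exp (by positivity))))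

theorem exp_split (a u : ℝ) (k : ℕ) :
    Real.exp (a * (k + u)) = Real.exp a ^ k * Real.exp (a * u) := by
  rw [← Real.exp_nat_mul, ← Real.exp_add]
  congr 1
  ring

theorem geo_start [NeZero m] {d a u : ℝ} (hd : 0 < d) (ha : 0 < a) (hu : 0 ≤ u) (c : Fin m)
    (k : ℕ) : start d (geo d a (c, u)) k =
      d * Real.exp (a * u) / (Real.exp a - 1) * (Real.exp a ^ k - 1) := by
  have h : Real.exp a - 1 ≠ 0 := (sub_pos.2 (Real.one_lt_exp_iff.2 ha)).ne'
  induction k with
  | zero => simp [start]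
  | succ k ih =>
    rw [start, Finset.sum_range_succ, ← start, ih, geo_val hd ha hu, exp_split, pow_succ]
    field_simp
    ring

theorem geo_sum [NeZero m] {d a u : ℝ} (hd : 0 < d) (ha : 0 < a) (hu : 0 ≤ u) (H : Fin m × ℝ≥0)
    {n : ℕ} (hn : (H.2 : ℝ) ≤ d / 2 * (Real.exp (a * (n + u)) - 1)) :
    (m : ℝ≥0∞)⁻¹ * ∑ c, cost d (geo d a (c, u)) H ≤ ENNReal.ofReal (H.2 +
      d / (Real.exp a - 1) * (Real.exp a ^ n * Sm m (Real.exp a) / m - 1) * Real.exp (a * u)) := by
  have hm := NeZero.pos m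
  have hm' : (0 : ℝ) < m := Nat.cast_pos.2 hm
  have h1 := Real.one_lt_exp_iff.2 ha
  have h2 := sub_pos.2 h1
  rw [← inv_mul_ofReal hm, ← Equiv.sum_comp (Equiv.subLeft (H.1 - Fin.ofNat m n))]
  refine mul_le_mul_right ?_ _
  have h3 : ∀ j : Fin m, cost d (geo d a (Equiv.subLeft (H.1 - Fin.ofNat m n) j, u)) H ≤
      ENNReal.ofReal (d * Real.exp (a * u) / (Real.exp a - 1) * (Real.exp a ^ (n + j) - 1) +
        H.2) := by
    intro j
    refine iInf₂_le_of_le (n + j) ⟨Or.inl ?_, ?_⟩ (by rw [geo_start hd ha hu])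
    · have : Fin.ofNat m (n + j) = Fin.ofNat m n + j := by
        ext
        simp [Fin.val_add]
      simp only [geo, Equiv.subLeft_apply, this]
      abel
    · rw [← NNReal.coe_le_coe, geo_val hd ha hu]
      refine hn.trans ?_
      gcongr
      omega
  refine (Finset.sum_le_sum fun j _ => h3 j).trans ?_
  rw [← ENNReal.ofReal_sum_of_nonneg fun j _ => add_nonneg (mul_nonneg (by positivity)
    (sub_nonneg.2 (one_le_pow₀ h1.le))) (NNReal.coe_nonneg H.2),
    Fin.sum_univ_eq_sum_range fun j => d * Real.exp (a * u) / (Real.exp a - 1) *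
      (Real.exp a ^ (n + j) - 1) + H.2]
  refine le_of_eq (congrArg _ ?_)
  simp only [Finset.sum_add_distrib, ← Finset.mul_sum, Finset.sum_sub_distrib, pow_add,
    Finset.sum_const, Finset.card_range, nsmul_eq_mul, Sm]
  field_simp
  ring

theorem lint_exp {a p q α β : ℝ} (ha : 0 < a) (hpq : p ≤ q) (hα : 0 ≤ α) (hβ : 0 ≤ β) :
    ∫⁻ u in Ioc p q, ENNReal.ofReal (α + β * Real.exp (a * u)) =
      ENNReal.ofReal (α * (q - p) + β * (Real.exp (a * q) - Real.exp (a * p)) / a) := by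
  have hc : Continuous fun u : ℝ => α + β * Real.exp (a * u) := by fun_prop
  rw [← ofReal_integral_eq_lintegral_ofReal (hc.integrableOn_Ioc)
    (Eventually.of_forall fun u => by positivity), ← intervalIntegral.integral_of_le hpq,
    intervalIntegral.integral_eq_sub_of_hasDerivAt
      (f := fun u => α * u + β * Real.exp (a * u) / a) (fun u _ => ?_) (hc.intervalIntegrable _ _)]
  · congr 1
    ring
  · have := ((hasDerivAt_id' u).const_mul α).fun_add
      (((((hasDerivAt_id' u).const_mul a).exp).const_mul β).div_const a)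
    convert this using 1
    field_simp

/-- The mixed strategy: uniform first ray and uniform phase. -/
noncomputable def mix (m : ℕ) [NeZero m] (d a : ℝ) : Measure (ℕ → Fin m × ℝ≥0) :=
  ((un m).prod (volume.restrict (Ioc 0 1))).map (geo d a)

instance : IsProbabilityMeasure (volume.restrict (Ioc (0 : ℝ) 1)) := ⟨by simp⟩

theorem mix_prob [NeZero m] (d a : ℝ) : IsProbabilityMeasure (mix m d a) :=
  have := un_prob (NeZero.pos m)
  Measure.isProbabilityMeasure_map (geo_meas d a).aemeasurable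

theorem mix_cyc [NeZero m] {d a : ℝ} (hd : 0 < d) (ha : 0 < a) : ∀ᵐ S ∂mix m d a, ∀ k,
    ((S (k + 1)).1 : ℕ) = ((S k).1 + 1) % m ∧ 0 < (S k).2 := by
  have := un_prob (NeZero.pos m)
  refine ae_all_iff.2 fun k => (ae_map_iff (geo_meas d a).aemeasurable ?_).2 ?_
  · exact (measurableSet_eq_fun (by fun_prop) (by fun_prop)).inter
      (measurableSet_lt (by fun_prop) (by fun_prop))
  · have h : ∀ᵐ p ∂(un m).prod (volume.restrict (Ioc (0 : ℝ) 1)), p.2 ∈ Ioc (0 : ℝ) 1 :=
      Measure.quasiMeasurePreserving_snd.ae (ae_restrict_mem measurableSet_Ioc)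
    refine h.mono fun p hp => ⟨?_, ?_⟩
    · simp [geo, Fin.val_add, add_assoc]
    · have h1 := hp.1
      rw [← NNReal.coe_lt_coe, geo_val hd ha h1.le p.1]
      exact mul_pos (half_pos hd) (sub_pos.2 (Real.one_lt_exp_iff.2 (by positivity)))

theorem mix_point [NeZero m] {d a : ℝ} (hd : 0 < d) (ha : 0 < a) (H : Fin m × ℝ≥0) :
    ∫⁻ S, cost d S H ∂mix m d a ≤ ENNReal.ofReal ((1 + 2 * Sm m (Real.exp a) / m / a) * H.2 +
      d * (Sm m (Real.exp a) / m - 1) / a) := by
  have hm := NeZero.pos m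
  have hm' : (0 : ℝ) < m := Nat.cast_pos.2 hm
  have h1 := Real.one_lt_exp_iff.2 ha
  have h2 := sub_pos.2 h1
  have hS := Sm_ge (m := m) h1
  have hc : Measurable fun S : ℕ → Fin m × ℝ≥0 => cost d S H :=
    (cost_meas d).comp (measurable_id.prodMk measurable_const)
  rw [mix, lintegral_map hc (geo_meas d a), lint_un hm _ (f := fun p => cost d (geo d a p) H)
    (hc.comp (geo_meas d a))]
  have hr : (0 : ℝ) ≤ H.2 := H.2.2
  have hx : 1 ≤ 1 + 2 * (H.2 : ℝ) / d := le_add_of_nonneg_right (by positivity)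
  set ξ := Real.log (1 + 2 * (H.2 : ℝ) / d) / a with hξ
  have hξ0 : 0 ≤ ξ := div_nonneg (Real.log_nonneg hx) ha.le
  have hξ1 : Real.exp (a * ξ) = 1 + 2 * (H.2 : ℝ) / d := by
    rw [hξ, mul_div_cancel₀ _ ha.ne', Real.exp_log (by linarith)]
  have hle : ∀ t, ξ ≤ t → (H.2 : ℝ) ≤ d / 2 * (Real.exp (a * t) - 1) := fun t ht => by
    have h3 : Real.exp (a * ξ) ≤ Real.exp (a * t) := by gcongr
    have h4 : d / 2 * (Real.exp (a * ξ) - 1) = H.2 := by
      rw [hξ1]
      field_simp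
      ring
    rw [← h4]
    gcongr
  obtain ⟨N, φ, hφ0, hφ1, hN⟩ : ∃ (N : ℕ) (φ : ℝ), 0 ≤ φ ∧ φ < 1 ∧ ξ = N + φ :=
    ⟨⌊ξ⌋₊, ξ - ⌊ξ⌋₊, sub_nonneg.2 (Nat.floor_le hξ0), by linarith [Nat.lt_floor_add_one ξ],
      by ring⟩
  have hβ : ∀ n : ℕ, 0 ≤ d / (Real.exp a - 1) * (Real.exp a ^ n * Sm m (Real.exp a) / m - 1) :=
    fun n => mul_nonneg (by positivity) (by
      rw [sub_nonneg, one_le_div hm']
      exact hS.trans (le_mul_of_one_le_left (hm'.le.trans hS) (one_le_pow₀ h1.le)))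
  have k1 := setLIntegral_mono' (μ := volume) (s := Ioc 0 φ) measurableSet_Ioc fun u hu =>
    geo_sum hd ha hu.1.le H (n := N + 1) (hle _ (by push_cast; linarith [hu.1]))
  have k2 := setLIntegral_mono' (μ := volume) (s := Ioc φ 1) measurableSet_Ioc fun u hu =>
    geo_sum hd ha (hφ0.trans hu.1.le) H (n := N) (hle _ (by linarith [hu.1]))
  rw [lint_exp ha hφ0 hr (hβ _)] at k1
  rw [lint_exp ha hφ1.le hr (hβ _)] at k2
  rw [← Ioc_union_Ioc_eq_Ioc hφ0 hφ1.le]
  refine ((lintegral_union_le _ _ _).trans (add_le_add k1 k2)).trans ?_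
  have e1 : Real.exp (a * 0) ≤ Real.exp (a * φ) := by gcongr
  have e2 : Real.exp (a * φ) ≤ Real.exp (a * 1) := by gcongr
  rw [← ENNReal.ofReal_add
    (add_nonneg (mul_nonneg hr (by linarith))
      (div_nonneg (mul_nonneg (hβ _) (sub_nonneg.2 e1)) ha.le))
    (add_nonneg (mul_nonneg hr (by linarith))
      (div_nonneg (mul_nonneg (hβ _) (sub_nonneg.2 e2)) ha.le))]
  refine le_of_eq (congrArg _ ?_)
  rw [hN, exp_split] at hξ1
  have e3 : (H.2 : ℝ) = d / 2 * (Real.exp a ^ N * Real.exp (a * φ) - 1) := by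
    rw [hξ1]
    field_simp
    ring
  rw [e3, mul_zero, mul_one, Real.exp_zero, pow_succ]
  field_simp
  ring

theorem mix_worst [NeZero m] {d a : ℝ} (hd : 0 < d) (ha : 0 < a) :
    worst d (mix m d a) ≤ ENNReal.ofReal (1 + ((2 + d) * Sm m (Real.exp a) / m - d) / a) := by
  have hm' : (0 : ℝ) < m := Nat.cast_pos.2 (NeZero.pos m)
  have hS := Sm_ge (m := m) (Real.one_lt_exp_iff.2 ha)
  have hS0 := hm'.trans_le hS
  have := mix_prob (m := m) d a
  refine iSup₂_le fun h hh => ?_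
  have := hh.1
  have hB : 0 ≤ d * (Sm m (Real.exp a) / m - 1) / a :=
    div_nonneg (mul_nonneg hd.le (sub_nonneg.2 ((one_le_div hm').2 hS))) ha.le
  have hl : 0 ≤ 1 + 2 * Sm m (Real.exp a) / m / a := by positivity
  rw [lintegral_lintegral_swap (cost_meas d).aemeasurable]
  refine (lintegral_mono fun H => mix_point hd ha H).trans ?_
  simp only [ENNReal.ofReal_add (mul_nonneg hl (NNReal.coe_nonneg _)) hB, ENNReal.ofReal_mul hl,
    ENNReal.ofReal_coe_nnreal]
  rw [lintegral_add_right _ measurable_const, lintegral_const_mul _ (by fun_prop), lintegral_const,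
    measure_univ, mul_one]
  refine (add_le_add_left (mul_le_mul_right hh.2 _) _).trans ?_
  rw [mul_one, ← ENNReal.ofReal_add hl hB]
  refine le_of_eq (congrArg _ ?_)
  ring

theorem weak (d : ℝ) (s : Measure (ℕ → Fin m × ℝ≥0)) [IsProbabilityMeasure s] :
    lowerVal m d ≤ worst d s := by
  refine iSup₂_mono fun h _ => ?_
  refine le_trans ?_ (lintegral_mono fun S => iInf_le (fun S => ∫⁻ H, cost d S H ∂h) S)
  rw [lintegral_const, measure_univ, mul_one]

theorem neg_two (hm : 2 ≤ m) :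
    Sm m (Real.exp 2) - 2 * ∑ l ∈ Finset.range m, Real.exp 2 ^ l * l ≤ 0 := by
  obtain ⟨n, rfl⟩ := Nat.exists_eq_add_of_le' hm
  rw [Sm, Finset.mul_sum, ← Finset.sum_sub_distrib, Finset.sum_range_succ',
    Finset.sum_range_succ']
  have h3 : ∑ k ∈ Finset.range n, (Real.exp 2 ^ (k + 1 + 1) -
      2 * (Real.exp 2 ^ (k + 1 + 1) * ((k + 1 + 1 : ℕ) : ℝ))) ≤ 0 :=
    Finset.sum_nonpos fun k _ => by
      have h4 : (0 : ℝ) < Real.exp 2 ^ (k + 1 + 1) := by positivity
      have h5 : (1 : ℝ) ≤ ((k + 1 + 1 : ℕ) : ℝ) := Nat.one_le_cast.2 (by omega)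
      nlinarith
  have h6 := Real.one_le_exp (x := 2) (by norm_num)
  simp only [zero_add, pow_one, Nat.cast_one, pow_zero, Nat.cast_zero] at h3 ⊢
  linarith

theorem root (hm : 2 ≤ m) {d ε : ℝ} (hd : 0 < d) (hε : 0 ≤ ε) : ∃ a : ℝ, 0 < a ∧
    (2 + d) * (Sm m (Real.exp a) - a * ∑ l ∈ Finset.range m, Real.exp a ^ l * l) =
      m * d + ε * m * a := by
  have hm' : (0 : ℝ) < m := Nat.cast_pos.2 (by omega)
  have hc : Continuous fun a : ℝ => (2 + d) * (Sm m (Real.exp a) -
      a * ∑ l ∈ Finset.range m, Real.exp a ^ l * l) - (m * d + ε * m * a) := by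
    unfold Sm
    fun_prop
  have h2 := neg_two hm
  obtain ⟨a, ha, h⟩ := intermediate_value_Icc' (zero_le_two (α := ℝ)) hc.continuousOn
    (show (0 : ℝ) ∈ Icc _ _ from ⟨by
      have := mul_nonpos_of_nonneg_of_nonpos (by positivity : 0 ≤ 2 + d) h2
      have : 0 ≤ m * d + ε * m * 2 := by positivity
      linarith, by
      simp [Sm]
      linarith⟩)
  refine ⟨a, ha.1.lt_of_ne ?_, sub_eq_zero.1 h⟩
  rintro rfl
  simp [Sm] at h
  linarith

theorem convex_sum (m : ℕ) (a t : ℝ) : Sm m (Real.exp a) +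
    (t - a) * ∑ l ∈ Finset.range m, Real.exp a ^ l * l ≤ Sm m (Real.exp t) := by
  rw [Sm, Sm, Finset.mul_sum, ← Finset.sum_add_distrib]
  refine Finset.sum_le_sum fun l _ => ?_
  have h1 : Real.exp t ^ l = Real.exp a ^ l * Real.exp (l * (t - a)) := by
    rw [← Real.exp_nat_mul, ← Real.exp_nat_mul, ← Real.exp_add]
    congr 1
    ring
  have h2 := mul_le_mul_of_nonneg_left (Real.add_one_le_exp (l * (t - a)))
    (by positivity : 0 ≤ Real.exp a ^ l)
  rw [h1]
  linarith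

theorem lower_ge (hm : 0 < m) {d a : ℝ} (hd : 0 < d) (ha : 0 < a) (h : m * d <
    (2 + d) * (Sm m (Real.exp a) - a * ∑ l ∈ Finset.range m, Real.exp a ^ l * l)) :
    ENNReal.ofReal (1 + (2 + d) / m * ∑ l ∈ Finset.range m, Real.exp a ^ l * l) ≤
      lowerVal m d := by
  obtain ⟨h, h1, h2, -, h3⟩ := hider_bound hm (M := 1 + d / 2) hd (Real.one_lt_exp_iff.2 ha)
    (by positivity) (by rw [Real.log_exp]; linarith)
  refine le_iSup₂_of_le h ⟨h1, by simp [h2]⟩ (le_iInf fun S => le_trans (le_of_eq ?_) (h3 S))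
  congr 1
  ring

theorem value (hm : 2 ≤ m) {d : ℝ} (hd : 0 < d) : ∃ V : ℝ,
    IsLeast ((fun r : ℝ => 1 + ((2 + d) * (∑ i ∈ Finset.range m, r ^ i) / m - d) / Real.log r) ''
      Ioi 1) V ∧ lowerVal m d = ENNReal.ofReal V ∧ upperVal m d = ENNReal.ofReal V ∧
    ∃ s : Measure (ℕ → Fin m × ℝ≥0), IsProbabilityMeasure s ∧
      (∀ᵐ S ∂s, ∀ k, ((S (k + 1)).1 : ℕ) = ((S k).1 + 1) % m ∧ 0 < (S k).2) ∧
      worst d s = ENNReal.ofReal V := by
  have hm0 : 0 < m := by omega
  have : NeZero m := ⟨hm0.ne'⟩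
  have hm' : (0 : ℝ) < m := Nat.cast_pos.2 hm0
  obtain ⟨a, ha, h⟩ := root hm hd le_rfl
  have hmin : ∀ t, 0 < t → 1 + ((2 + d) * Sm m (Real.exp a) / m - d) / a ≤
      1 + ((2 + d) * Sm m (Real.exp t) / m - d) / t := by
    intro t ht
    have h1 := mul_le_mul_of_nonneg_left (convex_sum m a t) (by positivity : 0 ≤ 2 + d)
    have h2 : ((2 + d) * Sm m (Real.exp a) / m - d) / a =
        (2 + d) * (∑ l ∈ Finset.range m, Real.exp a ^ l * l) / m := by
      field_simp
      linarith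
    rw [h2, add_le_add_iff_left, le_div_iff₀ ht, le_sub_iff_add_le, le_div_iff₀ hm']
    field_simp
    linarith
  have hp := mix_prob (m := m) d a
  have hup := mix_worst (m := m) hd ha
  have hlo : ENNReal.ofReal (1 + ((2 + d) * Sm m (Real.exp a) / m - d) / a) ≤ lowerVal m d := by
    refine ENNReal.le_of_forall_pos_le_add fun ε hε _ => ?_
    have hε' : (0 : ℝ) < ε := hε
    obtain ⟨t, ht, h'⟩ := root hm hd hε'.le
    have h3 := lower_ge hm0 hd ht (by rw [h']; exact lt_add_of_pos_right _ (by positivity))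
    refine le_trans ?_ (add_le_add_left h3 _)
    rw [← ENNReal.ofReal_coe_nnreal, ← ENNReal.ofReal_add (by positivity) hε'.le]
    refine ENNReal.ofReal_le_ofReal ((hmin t ht).trans_eq ?_)
    field_simp
    linarith
  have h4 : upperVal m d ≤ worst d (mix m d a) := iInf₂_le (mix m d a) hp
  have h5 : lowerVal m d ≤ upperVal m d := le_iInf₂ fun s _ => weak d s
  refine ⟨_, ⟨⟨Real.exp a, Real.one_lt_exp_iff.2 ha, by simp only [Real.log_exp, Sm]⟩, ?_⟩,
    le_antisymm (h5.trans (h4.trans hup)) hlo, le_antisymm (h4.trans hup) (hlo.trans h5),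
    mix m d a, hp, mix_cyc hd ha, le_antisymm hup (hlo.trans (h5.trans h4))⟩
  rintro _ ⟨r, hr, rfl⟩
  have := hmin _ (Real.log_pos hr)
  rwa [Real.exp_log (zero_lt_one.trans hr)] at this

end Pool.Agent.P.MP_5c5fd6_lc.Star
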