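import Pool.Agent.P.MP_5c5fd6_lc.StarMain

/-!
The trade-off between ratio and additive term for randomised search on a star with turning cost.
-/

namespace Pool.Agent.P.MP_5c5fd6_lc.Star

open MeasureTheory Set Filter Topology
open scoped ENNReal NNReal

variable {m : ℕ}

theorem dual_ineq (hm : 0 < m) {d c B a M : ℝ} (hd : 0 < d) (hc : 0 ≤ c) (hB : 0 ≤ B)
    (s : Measure (ℕ → Fin m × ℝ≥0)) [IsProbabilityMeasure s]
    (hs : ∀ H, ∫⁻ S, cost d S H ∂s ≤ ENNReal.ofReal (c * H.2 + B)) (ha : 0 < a) (hM : 0 < M)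
    (hD : m * (d / 2) <
      M * (Sm m (Real.exp a) - a * ∑ l ∈ Finset.range m, Real.exp a ^ l * l)) :
    M - d / 2 + 2 / m * (∑ l ∈ Finset.range m, Real.exp a ^ l * l) * M ≤ c * (M - d / 2) + B := by
  obtain ⟨h, h1, h2, h3, h4⟩ := hider_bound hm hd (Real.one_lt_exp_iff.2 ha) hM
    (by rwa [Real.log_exp])
  have h5 : 0 ≤ c * (M - d / 2) := mul_nonneg hc (sub_nonneg.2 h3)
  rw [← ENNReal.ofReal_le_ofReal_iff (add_nonneg h5 hB)]
  refine le_trans ?_ ((lintegral_mono h4).trans ?_ :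
    ∫⁻ _, ENNReal.ofReal _ ∂s ≤ ENNReal.ofReal (c * (M - d / 2) + B))
  · rw [lintegral_const, measure_univ, mul_one]
  rw [lintegral_lintegral_swap (cost_meas d).aemeasurable]
  refine (lintegral_mono hs).trans ?_
  simp only [ENNReal.ofReal_add (mul_nonneg hc (NNReal.coe_nonneg _)) hB, ENNReal.ofReal_mul hc,
    ENNReal.ofReal_coe_nnreal]
  rw [lintegral_add_right _ measurable_const, lintegral_const_mul _ (by fun_prop), lintegral_const,
    measure_univ, mul_one, h2, ENNReal.ofReal_add h5 hB, ENNReal.ofReal_mul hc]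

theorem affine_le {x y M₀ : ℝ} (h : ∀ M, M₀ < M → M * x ≤ y) : x ≤ 0 ∧ M₀ * x ≤ y := by
  constructor
  · by_contra hx
    have hx' := not_le.1 hx
    have h1 := h (max M₀ (y / x) + 1) (by linarith [le_max_left M₀ (y / x)])
    have h2 := mul_le_mul_of_nonneg_right (le_max_right M₀ (y / x)) hx'.le
    rw [div_mul_cancel₀ _ hx'.ne'] at h2
    linarith
  · have h1 : Tendsto (fun M : ℝ => M * x) (𝓝[>] M₀) (𝓝 (M₀ * x)) :=
      ((continuous_id.mul continuous_const).tendsto M₀).mono_left nhdsWithin_le_nhds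
    exact le_of_tendsto h1 (eventually_mem_nhdsWithin.mono h)

theorem trade_aux (hm : 2 ≤ m) {d c B : ℝ} (hd : 0 < d) (hc : 0 ≤ c) (hB : 0 ≤ B)
    (s : Measure (ℕ → Fin m × ℝ≥0)) [IsProbabilityMeasure s]
    (hs : ∀ H, ∫⁻ S, cost d S H ∂s ≤ ENNReal.ofReal (c * H.2 + B)) : ∃ a : ℝ, 0 < a ∧
      1 + 2 * Sm m (Real.exp a) / m / a ≤ c ∧ d * (Sm m (Real.exp a) / m - 1) / a ≤ B := by
  have hm0 : 0 < m := by omega
  have hm' : (0 : ℝ) < m := Nat.cast_pos.2 hm0
  set S : ℝ → ℝ := fun a => Sm m (Real.exp a) with hS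
  set Q : ℝ → ℝ := fun a => ∑ l ∈ Finset.range m, Real.exp a ^ l * l with hQ
  have cS : Continuous S := by
    simp only [hS, Sm]
    fun_prop
  have cQ : Continuous Q := by fun_prop
  let K : Set ℝ := Ici 0 ∩ ({a | S a ≤ a * Q a} ∪ {a | 2 * S a / m ≤ a * (c - 1)})
  have hK : IsClosed K := isClosed_Ici.inter
    ((isClosed_le cS (by fun_prop)).union (isClosed_le (by fun_prop) (by fun_prop)))
  have hne : K.Nonempty := ⟨2, by norm_num, Or.inl (sub_nonpos.1 (neg_two hm))⟩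
  have hbd : BddBelow K := ⟨0, fun _ h => h.1⟩
  have h0 := hK.csInf_mem hne hbd
  set a := sInf K with ha
  have hS0 : S 0 = m := by simp [hS, Sm]
  have ha0 : 0 < a := by
    refine lt_of_le_of_ne h0.1 fun e => ?_
    rw [← e] at h0
    rcases h0.2 with h | h
    · simp only [mem_ofPred_eq, hS0, zero_mul] at h
      linarith
    · simp only [mem_ofPred_eq, hS0, zero_mul] at h
      have : 0 < 2 * (m : ℝ) / m := by positivity
      linarith
  have key : ∀ t ∈ Ioo 0 a, 2 / m * Q t ≤ c - 1 ∧ (c - 1) * (d / 2) * t - d ≤ B * t := by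
    intro t ht
    have h1 : t ∉ K := notMem_of_lt_csInf ht.2 hbd
    have h2 : 0 < S t - t * Q t := sub_pos.2 (not_le.1 fun h => h1 ⟨ht.1.le, Or.inl h⟩)
    have h3 : t * (c - 1) < 2 * S t / m := not_le.1 fun h => h1 ⟨ht.1.le, Or.inr h⟩
    have h4 : 0 < m * (d / 2) / (S t - t * Q t) := by positivity
    obtain ⟨h5, h6⟩ := affine_le (x := 2 / m * Q t - (c - 1)) (y := B - (c - 1) * (d / 2))
      (M₀ := m * (d / 2) / (S t - t * Q t)) fun M hM => by
        have := dual_ineq hm0 hd hc hB s hs ht.1 (h4.trans hM) ((div_lt_iff₀ h2).1 hM)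
        linarith
    refine ⟨by linarith, ?_⟩
    have h7 := mul_le_mul_of_nonneg_right h6 ht.1.le
    have h8 := mul_le_mul_of_nonneg_left h3.le h4.le
    have h9 : m * (d / 2) / (S t - t * Q t) * (2 * S t / m - t * (2 / m * Q t)) = d := by
      field_simp
    linarith
  have hcl : a ∈ closure (Ioo 0 a) := by
    rw [closure_Ioo ha0.ne]
    exact right_mem_Icc.2 ha0.le
  have k1 : 2 / m * Q a ≤ c - 1 :=
    le_on_closure (f := fun t => 2 / m * Q t) (g := fun _ => c - 1) (fun t ht => (key t ht).1)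
      (by fun_prop) (by fun_prop) hcl
  have k2 : (c - 1) * (d / 2) * a - d ≤ B * a :=
    le_on_closure (f := fun t => (c - 1) * (d / 2) * t - d) (g := fun t => B * t)
      (fun t ht => (key t ht).2) (by fun_prop) (by fun_prop) hcl
  have k3 : 2 * S a / m ≤ a * (c - 1) := by
    rcases h0.2 with h | h
    · have h1 := mul_le_mul_of_nonneg_left k1 ha0.le
      have h2 : 2 * S a / m ≤ 2 * (a * Q a) / m := by
        have h3 : S a ≤ a * Q a := h
        gcongr
      have h3 : 2 * (a * Q a) / m = a * (2 / m * Q a) := by ring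
      linarith
    · exact h
  refine ⟨a, ha0, ?_, ?_⟩
  · rw [← le_sub_iff_add_le', div_le_iff₀' ha0]
    exact k3
  · rw [div_le_iff₀ ha0]
    have h1 := mul_le_mul_of_nonneg_left k3 (half_pos hd).le
    have h2 : d * (S a / m - 1) = d / 2 * (2 * S a / m) - d := by ring
    show d * (S a / m - 1) ≤ B * a
    linarith

theorem Sm_gt (hm : 2 ≤ m) {R : ℝ} (hR : 1 < R) : (m : ℝ) < Sm m R := by
  have : ∑ _l ∈ Finset.range m, (1 : ℝ) < Sm m R :=
    Finset.sum_lt_sum (fun l _ => one_le_pow₀ hR.le) ⟨1, Finset.mem_range.2 hm, by simpa using hR⟩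
  simpa using this

theorem trade (hm : 2 ≤ m) {d : ℝ} (hd : 0 < d) (c B : ℝ) :
    (∃ s : Measure (ℕ → Fin m × ℝ≥0), IsProbabilityMeasure s ∧
      ∀ H, ∫⁻ S, cost d S H ∂s ≤ ENNReal.ofReal (c * H.2 + B)) ↔
    ∃ r : ℝ, 1 < r ∧ 1 + 2 * (∑ i ∈ Finset.range m, r ^ i) / m / Real.log r ≤ c ∧
      d * ((∑ i ∈ Finset.range m, r ^ i) / m - 1) / Real.log r ≤ B := by
  have : NeZero m := ⟨by omega⟩
  have hm' : (0 : ℝ) < m := Nat.cast_pos.2 (by omega)
  constructor
  · rintro ⟨s, hp, hs⟩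
    obtain ⟨a, ha, h1, h2⟩ := trade_aux hm hd (le_max_right c 0) (le_max_right B 0) s fun H =>
      (hs H).trans (ENNReal.ofReal_le_ofReal (add_le_add
        (mul_le_mul_of_nonneg_right (le_max_left c 0) (NNReal.coe_nonneg _)) (le_max_left B 0)))
    have h3 := Sm_gt hm (Real.one_lt_exp_iff.2 ha)
    have h4 := hm'.trans h3
    refine ⟨Real.exp a, Real.one_lt_exp_iff.2 ha, ?_, ?_⟩ <;> rw [Real.log_exp]
    · exact (le_max_iff.1 h1).resolve_right (not_le.2 (by positivity))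
    · exact (le_max_iff.1 h2).resolve_right (not_le.2
        (div_pos (mul_pos hd (sub_pos.2 ((one_lt_div hm').2 h3))) ha))
  · rintro ⟨r, hr, h1, h2⟩
    refine ⟨mix m d (Real.log r), mix_prob _ _, fun H =>
      (mix_point hd (Real.log_pos hr) H).trans (ENNReal.ofReal_le_ofReal ?_)⟩
    rw [Real.exp_log (zero_lt_one.trans hr)]
    exact add_le_add (mul_le_mul_of_nonneg_right h1 (NNReal.coe_nonneg _)) h2

end Pool.Agent.P.MP_5c5fd6_lc.Star
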